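import Pool.Agent.H90.LC.Targets

/-!
# HP: the local factor
-/

set_option autoImplicit false

namespace Pool.Agent.H90.LCL

open Finset Pool.Agent.H90.LC

/-- The primes `3 mod 4` dividing `j`. -/
def F3 (j : ℕ) : Finset ℕ := j.primeFactors.filter (fun p => p % 4 = 3)

theorem hp_eq (j : ℕ) : hp j = ∏ p ∈ F3 j, (1 - 2 / (p : ℝ))⁻¹ := rfl

theorem mem_F3 {j p : ℕ} : p ∈ F3 j ↔ (p.Prime ∧ p ∣ j ∧ j ≠ 0) ∧ p % 4 = 3 := by
  unfold F3
  rw [mem_filter, Nat.mem_primeFactors]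

theorem three_le_of_mod {p : ℕ} (h : p % 4 = 3) : 3 ≤ p := by omega

theorem fac_one_le {p : ℕ} (h : p % 4 = 3) : 1 ≤ (1 - 2 / (p : ℝ))⁻¹ := by
  have h3 : (3 : ℝ) ≤ p := by exact_mod_cast three_le_of_mod h
  have h1 : 0 < 1 - 2 / (p : ℝ) := by
    rw [sub_pos, div_lt_one (by linarith)]
    linarith
  rw [one_le_inv₀ h1]
  have : 0 ≤ 2 / (p : ℝ) := by positivity
  linarith

theorem fac_le {p : ℕ} (h : p % 4 = 3) :
    (1 - 2 / (p : ℝ))⁻¹ ≤ (if p = 3 then 2 else 1) * √(p : ℝ) := by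
  have h3 : (3 : ℝ) ≤ p := by exact_mod_cast three_le_of_mod h
  have h1 : 0 < 1 - 2 / (p : ℝ) := by
    rw [sub_pos, div_lt_one (by linarith)]
    linarith
  split_ifs with hp
  · subst hp
    have : (3 / 2 : ℝ) ≤ √((3 : ℕ) : ℝ) := by
      apply Real.le_sqrt_of_sq_le
      norm_num
    have e : (1 - 2 / ((3 : ℕ) : ℝ))⁻¹ = 3 := by norm_num
    rw [e]
    calc (3 : ℝ) = 2 * (3 / 2) := by norm_num
      _ ≤ 2 * √((3 : ℕ) : ℝ) := mul_le_mul_of_nonneg_left this (by norm_num)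
  · have h7 : 7 ≤ p := by omega
    have h7' : (7 : ℝ) ≤ p := by exact_mod_cast h7
    have h2 : (1 - 2 / (p : ℝ))⁻¹ ≤ 7 / 5 := by
      rw [inv_le_comm₀ h1 (by norm_num)]
      have : 2 / (p : ℝ) ≤ 2 / 7 := by
        apply div_le_div_of_nonneg_left (by norm_num) (by norm_num) h7'
      norm_num
      linarith
    have h4 : (7 / 5 : ℝ) ≤ √(p : ℝ) := by
      apply Real.le_sqrt_of_sq_le
      norm_num
      linarith
    rw [one_mul]
    exact h2.trans h4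

theorem one_le_hp (j : ℕ) : 1 ≤ hp j := by
  rw [hp_eq]
  exact one_le_prod fun p hp => fac_one_le (mem_F3.1 hp).2

theorem hp_le {j : ℕ} (hj : 0 < j) : hp j ≤ 2 * √(j : ℝ) := by
  have h1 : hp j ≤ ∏ p ∈ F3 j, ((if p = 3 then 2 else 1) * √(p : ℝ)) := by
    rw [hp_eq]
    refine prod_le_prod (fun p hp => ?_) fun p hp => fac_le (mem_F3.1 hp).2
    exact zero_le_one.trans (fac_one_le (mem_F3.1 hp).2)
  refine h1.trans ?_
  rw [prod_mul_distrib]
  have h2 : ∏ p ∈ F3 j, (if p = 3 then (2 : ℝ) else 1) ≤ 2 := by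
    rw [prod_ite_eq' (F3 j) 3 (fun _ => (2 : ℝ))]
    split_ifs <;> norm_num
  have h3 : ∏ p ∈ F3 j, √(p : ℝ) ≤ √(j : ℝ) := by
    apply Real.le_sqrt_of_sq_le
    rw [← prod_pow]
    have e : ∏ p ∈ F3 j, √(p : ℝ) ^ 2 = ((∏ p ∈ F3 j, p : ℕ) : ℝ) := by
      push_cast
      exact prod_congr rfl fun p _ => Real.sq_sqrt (Nat.cast_nonneg p)
    rw [e]
    have h4 : ∏ p ∈ F3 j, p ∣ j := by
      refine dvd_trans (prod_dvd_prod_of_subset _ _ _ (filter_subset _ _)) ?_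
      exact Nat.prod_primeFactors_dvd j
    exact_mod_cast Nat.le_of_dvd hj h4
  exact mul_le_mul h2 h3 (prod_nonneg fun p _ => Real.sqrt_nonneg _) (by norm_num)

theorem hp_mul {m n : ℕ} (hm : 0 < m) (hn : 0 < n) : hp (m * n) ≤ hp m * hp n := by
  have e : F3 (m * n) = F3 m ∪ F3 n := by
    unfold F3
    rw [Nat.primeFactors_mul hm.ne' hn.ne', filter_union]
  rw [hp_eq, hp_eq, hp_eq, e, ← prod_union_inter]
  refine le_mul_of_one_le_right (prod_nonneg fun p hp => ?_) (one_le_prod fun p hp => ?_)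
  · rcases mem_union.1 hp with h | h
    · exact zero_le_one.trans (fac_one_le (mem_F3.1 h).2)
    · exact zero_le_one.trans (fac_one_le (mem_F3.1 h).2)
  · exact fac_one_le (mem_F3.1 (mem_inter.1 hp).1).2

theorem hp_sq {m n : ℕ} (hm : 0 < m) (hn : 0 < n)
    (h : ∀ p : ℕ, p.Prime → p ∣ m → p % 4 ≠ 3) : hp (m * n ^ 2) = hp n := by
  have e : F3 (m * n ^ 2) = F3 n := by
    ext p
    rw [mem_F3, mem_F3]
    constructor
    · rintro ⟨⟨h1, h2, _⟩, h4⟩
      rcases (h1.dvd_mul).1 h2 with h5 | h5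
      · exact absurd h4 (h p h1 h5)
      · exact ⟨⟨h1, h1.dvd_of_dvd_pow h5, hn.ne'⟩, h4⟩
    · rintro ⟨⟨h1, h2, _⟩, h4⟩
      refine ⟨⟨h1, Dvd.dvd.mul_left (dvd_pow h2 (by norm_num)) m, ?_⟩, h4⟩
      exact (Nat.mul_pos hm (pow_pos hn 2)).ne'
  rw [hp_eq, hp_eq, e]

theorem sum_bound (X : ℕ) : ∑ b ∈ Icc 1 (X + 1), 1 / ((b : ℝ) * √(b : ℝ)) ≤
    3 - 2 / √((X : ℝ) + 1) := by
  induction X with
  | zero => simp; norm_num
  | succ n ih =>
    rw [sum_Icc_succ_top (by omega)]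
    push_cast at ih ⊢
    set s := √((n : ℝ) + 1) with hs
    set t := √((n : ℝ) + 1 + 1) with ht
    have hs0 : 0 < s := Real.sqrt_pos.2 (by positivity)
    have ht0 : 0 < t := Real.sqrt_pos.2 (by positivity)
    have hs2 : s ^ 2 = (n : ℝ) + 1 := Real.sq_sqrt (by positivity)
    have ht2 : t ^ 2 = (n : ℝ) + 1 + 1 := Real.sq_sqrt (by positivity)
    have hst : s ≤ t := Real.sqrt_le_sqrt (by linarith)
    rw [← ht2]
    have key : 1 / (t ^ 2 * t) ≤ 2 / s - 2 / t := by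
      have e : 2 / s - 2 / t = 2 * (t ^ 2 - s ^ 2) / (s * t * (t + s)) := by
        field_simp
        ring
      have e2 : t ^ 2 - s ^ 2 = 1 := by rw [ht2, hs2]; ring
      rw [e, e2, mul_one, div_le_div_iff₀ (by positivity) (by positivity)]
      have h1 : s * t ≤ t * t := mul_le_mul_of_nonneg_right hst ht0.le
      have h2 : s * (t * t) ≤ t * (t * t) := mul_le_mul_of_nonneg_right hst (by positivity)
      have h3 : s * s * t ≤ t * t * t := by
        apply mul_le_mul_of_nonneg_right _ ht0.le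
        exact mul_le_mul hst hst hs0.le ht0.le
      nlinarith
    linarith

theorem pf_HP : T_HP := by
  refine ⟨fun j hj => ⟨one_le_hp j, hp_le hj⟩, fun m n hm hn => hp_mul hm hn,
    fun m n hm hn h => hp_sq hm hn h, 6, by norm_num, fun X => ?_⟩
  rcases Nat.eq_zero_or_pos X with h | h
  · subst h
    simp
  · obtain ⟨n, rfl⟩ : ∃ n, X = n + 1 := ⟨X - 1, by omega⟩
    have h1 : ∀ b ∈ Icc 1 (n + 1), hp b / (b : ℝ) ^ 2 ≤ 2 * (1 / ((b : ℝ) * √(b : ℝ))) := by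
      intro b hb
      have hb1 := (mem_Icc.1 hb).1
      have hb0 : (0 : ℝ) < b := by exact_mod_cast hb1
      have hs0 : 0 < √(b : ℝ) := Real.sqrt_pos.2 hb0
      have h2 := hp_le (j := b) hb1
      have e : (2 : ℝ) * (1 / ((b : ℝ) * √(b : ℝ))) = 2 * √(b : ℝ) / (b : ℝ) ^ 2 := by
        have h3 : √(b : ℝ) * √(b : ℝ) = b := Real.mul_self_sqrt hb0.le
        rw [mul_one_div, div_eq_div_iff (by positivity) (by positivity)]
        calc (2 : ℝ) * (b : ℝ) ^ 2 = 2 * b * b := by ring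
          _ = 2 * b * (√(b : ℝ) * √(b : ℝ)) := by rw [h3]
          _ = 2 * √(b : ℝ) * ((b : ℝ) * √(b : ℝ)) := by ring
      rw [e]
      exact div_le_div_of_nonneg_right h2 (by positivity)
    refine (sum_le_sum h1).trans ?_
    rw [← mul_sum]
    have h2 := sum_bound n
    have h3 : 0 ≤ 2 / √((n : ℝ) + 1) := by positivity
    linarith

end Pool.Agent.H90.LCL
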