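import Pool.Agent.H90.LCL.SQF

/-!
# SQC: the number of squarefree numbers in an arithmetic progression
-/

set_option autoImplicit false

namespace Pool.Agent.H90.LCL

open Finset Pool.Agent.H90.LC

theorem sqc (M a N : ℕ) (h6 : 6 ∣ M) (hM : 0 < M)
    (hyp : ∀ n : ℕ, n ≡ a [MOD M] → ∀ p : ℕ, p.Prime → p ∣ M → ¬ p ^ 2 ∣ n)
    (hN : 400 * M ^ 2 ≤ N) :
    (N : ℝ) / (4 * M) ≤ (((Icc 1 N).filter (fun n => n ≡ a [MOD M] ∧ Squarefree n)).card : ℝ) := by
  classical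
  set J := N / M - 1 with hJ
  set a' := a % M with ha'
  have ha'M : a' < M := Nat.mod_lt _ hM
  have hM6 : 6 ≤ M := Nat.le_of_dvd hM h6
  have hNM : 400 * M ≤ N / M := by
    rw [Nat.le_div_iff_mul_le hM]
    calc 400 * M * M = 400 * M ^ 2 := by ring
      _ ≤ N := hN
  have hJ1 : J + 1 = N / M := by omega
  have hmod : ∀ j : ℕ, M * j + a' ≡ a [MOD M] := by
    intro j
    have h1 : M * j + a' ≡ 0 + a [MOD M] :=
      Nat.ModEq.add ((Nat.modEq_zero_iff_dvd).2 (Dvd.intro _ rfl)) (Nat.mod_modEq a M)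
    rwa [zero_add] at h1
  have hle : ∀ j ∈ Icc 1 J, M ≤ M * j + a' ∧ M * j + a' ≤ N := by
    intro j hj
    rw [mem_Icc] at hj
    refine ⟨by nlinarith, ?_⟩
    have h1 : M * (J + 1) ≤ N := by
      rw [hJ1]
      exact Nat.mul_div_le N M
    have h2 : M * j ≤ M * J := Nat.mul_le_mul_left M hj.2
    have h3 : M * (J + 1) = M * J + M := by ring
    omega
  set G := (Icc 1 J).filter (fun j => Squarefree (M * j + a')) with hG
  set Bd := (Icc 1 J).filter (fun j => ¬ Squarefree (M * j + a')) with hBd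
  have hsum : G.card + Bd.card = J := by
    rw [hG, hBd, card_filter_add_card_filter_not, Nat.card_Icc, Nat.add_sub_cancel]
  have hinj : G.card ≤ ((Icc 1 N).filter (fun n => n ≡ a [MOD M] ∧ Squarefree n)).card := by
    refine card_le_card_of_injOn (fun j => M * j + a') ?_ ?_
    · intro j hj
      have hj' : j ∈ G := hj
      rw [hG, mem_filter] at hj'
      have h1 := hle j hj'.1
      have : M * j + a' ∈ (Icc 1 N).filter (fun n => n ≡ a [MOD M] ∧ Squarefree n) :=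
        mem_filter.2 ⟨mem_Icc.2 ⟨by omega, h1.2⟩, hmod j, hj'.2⟩
      exact this
    · intro j _ j' _ he
      have he' : M * j + a' = M * j' + a' := he
      have : M * j = M * j' := by omega
      exact Nat.eq_of_mul_eq_mul_left hM this
  have hsub : Bd ⊆ (Icc 5 (Nat.sqrt N)).biUnion
      (fun p => (Icc 1 J).filter (fun j => (p.Prime ∧ ¬ p ∣ M) ∧ p ^ 2 ∣ M * j + a')) := by
    intro j hj
    rw [hBd, mem_filter] at hj
    have hns := hj.2
    have h1 := hle j hj.1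
    rw [Nat.squarefree_iff_prime_squarefree] at hns
    push Not at hns
    obtain ⟨p, hp, hpp⟩ := hns
    rw [← sq] at hpp
    have hpM : ¬ p ∣ M := fun h => hyp _ (hmod j) p hp h hpp
    have h2 : p ≠ 2 := fun h => hpM (h ▸ dvd_trans (by norm_num) h6)
    have h3 : p ≠ 3 := fun h => hpM (h ▸ dvd_trans (by norm_num) h6)
    have h4 : p ≠ 4 := fun h => by
      rw [h] at hp
      revert hp
      decide
    have h5 : 5 ≤ p := by
      have := hp.two_le
      omega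
    have h7 : p ≤ Nat.sqrt N := by
      rw [Nat.le_sqrt']
      exact (Nat.le_of_dvd (by omega) hpp).trans h1.2
    exact mem_biUnion.2 ⟨p, mem_Icc.2 ⟨h5, h7⟩, mem_filter.2 ⟨hj.1, ⟨hp, hpM⟩, hpp⟩⟩
  have hcard := (card_le_card hsub).trans card_biUnion_le
  have hone : ∀ p ∈ Icc 5 (Nat.sqrt N), (((Icc 1 J).filter
      (fun j => (p.Prime ∧ ¬ p ∣ M) ∧ p ^ 2 ∣ M * j + a')).card : ℝ) ≤
      ((J : ℝ) + 1) * (1 / (p : ℝ) ^ 2) + 1 := by
    intro p hp
    have h1 : ((Icc 1 J).filter (fun j => (p.Prime ∧ ¬ p ∣ M) ∧ p ^ 2 ∣ M * j + a')).card ≤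
        (J + 1) / p ^ 2 + 1 := by
      apply Pool.Agent.H28.card_le_of_modEq
      · intro t ht
        rw [mem_filter, mem_Icc] at ht
        omega
      · intro t ht u hu
        rw [mem_filter] at ht hu
        exact Pool.Agent.H28.modEq_sq_of_sq_dvd ht.2.1.1 ht.2.1.2 ht.2.2 hu.2.2
    have h2 : (((J + 1) / p ^ 2 : ℕ) : ℝ) ≤ ((J : ℝ) + 1) * (1 / (p : ℝ) ^ 2) := by
      refine Nat.cast_div_le.trans (le_of_eq ?_)
      push_cast
      ring
    have h3 : (((Icc 1 J).filter (fun j => (p.Prime ∧ ¬ p ∣ M) ∧ p ^ 2 ∣ M * j + a')).card : ℝ) ≤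
        (((J + 1) / p ^ 2 + 1 : ℕ) : ℝ) := by exact_mod_cast h1
    refine h3.trans ?_
    push_cast at h2 ⊢
    linarith
  have hs20 : 20 * M ≤ Nat.sqrt N := by
    rw [Nat.le_sqrt']
    calc (20 * M) ^ 2 = 400 * M ^ 2 := by ring
      _ ≤ N := hN
  have h1 : (Bd.card : ℝ) ≤ ∑ p ∈ Icc 5 (Nat.sqrt N), (((J : ℝ) + 1) * (1 / (p : ℝ) ^ 2) + 1) := by
    have h2 : (Bd.card : ℝ) ≤ ((∑ p ∈ Icc 5 (Nat.sqrt N), ((Icc 1 J).filter
      (fun j => (p.Prime ∧ ¬ p ∣ M) ∧ p ^ 2 ∣ M * j + a')).card : ℕ) : ℝ) := by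
      exact_mod_cast hcard
    refine h2.trans ?_
    push_cast
    exact sum_le_sum hone
  rw [sum_add_distrib, ← mul_sum, sum_const, nsmul_eq_mul, mul_one, Nat.card_Icc] at h1
  have h2 := sum_sq (Nat.sqrt N) (by omega)
  have h3 : ∑ k ∈ Icc 5 (Nat.sqrt N), 1 / (k : ℝ) ^ 2 ≤ 1 / 4 := by
    have : 0 ≤ 1 / ((Nat.sqrt N : ℕ) : ℝ) := by positivity
    linarith
  have hMR : (6 : ℝ) ≤ M := by exact_mod_cast hM6
  have hM0 : (0 : ℝ) < M := by linarith
  have hs : ((Nat.sqrt N : ℕ) : ℝ) ^ 2 ≤ N := by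
    exact_mod_cast Nat.sqrt_le' N
  have hs20R : 20 * (M : ℝ) ≤ ((Nat.sqrt N : ℕ) : ℝ) := by exact_mod_cast hs20
  set s : ℝ := ((Nat.sqrt N : ℕ) : ℝ) with hsdef
  have h4 : ((Nat.sqrt N + 1 - 5 : ℕ) : ℝ) ≤ s := by
    have : Nat.sqrt N + 1 - 5 ≤ Nat.sqrt N := by omega
    rw [hsdef]
    exact_mod_cast this
  have h5 : ((J : ℝ) + 1) * ∑ k ∈ Icc 5 (Nat.sqrt N), 1 / (k : ℝ) ^ 2 ≤
      ((J : ℝ) + 1) * (1 / 4) :=
    mul_le_mul_of_nonneg_left h3 (by positivity)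
  have h7 : (Bd.card : ℝ) ≤ ((J : ℝ) + 1) / 4 + s := by linarith
  have h8 : (G.card : ℝ) + Bd.card = J := by exact_mod_cast hsum
  -- the size of `J`
  have h9 : (N : ℝ) / M - 1 ≤ (J : ℝ) + 1 := by
    have e : (J : ℝ) + 1 = ((N / M : ℕ) : ℝ) := by
      rw [← hJ1]
      push_cast
      ring
    rw [e]
    have h10 : N < (N / M + 1) * M := by
      have h11 := Nat.div_add_mod N M
      have h12 := Nat.mod_lt N hM
      nlinarith
    have h13 : (N : ℝ) < (((N / M : ℕ) : ℝ) + 1) * M := by exact_mod_cast h10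
    have h14 : (N : ℝ) / M < ((N / M : ℕ) : ℝ) + 1 := by
      rw [div_lt_iff₀ hM0]
      exact h13
    linarith
  have h10 : s ≤ (1 / 20) * ((N : ℝ) / M) := by
    rw [← mul_div_assoc, le_div_iff₀ hM0]
    have : s * M ≤ s * (s / 20) := by
      apply mul_le_mul_of_nonneg_left _ (by positivity)
      linarith
    nlinarith
  have h11 : (120 : ℝ) ≤ s := by linarith
  have h12 : (N : ℝ) / (4 * M) = (1 / 4) * ((N : ℝ) / M) := by
    field_simp
  rw [h12]
  have h13 : (G.card : ℝ) ≤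
      (((Icc 1 N).filter (fun n => n ≡ a [MOD M] ∧ Squarefree n)).card : ℝ) := by
    exact_mod_cast hinj
  refine le_trans ?_ h13
  linarith

end Pool.Agent.H90.LCL
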