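import Pool.Agent.H90.LCL.HP

/-!
# WZ: the product over the primes
-/

set_option autoImplicit false

namespace Pool.Agent.H90.LCL

open Finset Pool.Agent.H90.LC Pool.Agent.H44.MS

theorem VA_eq (A : ℕ → Prop) [DecidablePred A] (z : ℕ) :
    VA A z = ∏ p ∈ (Icc 1 z).filter Nat.Prime, (if A p then 1 - 1 / (p : ℝ) else 1) := by
  unfold VA
  rw [prod_filter]
  refine prod_congr rfl fun p _ => ?_
  unfold ic
  by_cases h1 : p.Prime <;> by_cases h2 : A p <;> simp [h1, h2]

theorem pf_WZ (hVT : T_VT) (hVV : T_VV) : T_WZ := by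
  obtain ⟨C₁, hC₁, h1⟩ := hVT
  obtain ⟨c, C₂, hc, hC₂, h2⟩ := hVV
  refine ⟨C₁ * (C₂ * √(Real.log 2)) + 1, by positivity, fun z j hz hj => ?_⟩
  have hz' : (2 : ℝ) ≤ z := by exact_mod_cast hz
  have hlog : 0 < Real.log z := Real.log_pos (by linarith)
  have hsq : 0 < √(Real.log z) := Real.sqrt_pos.2 hlog
  have e1 := VA_eq (fun _ => True) z
  have e2 : VA (A3 2) z = ∏ p ∈ (Icc 1 z).filter Nat.Prime,
      (if p % 4 = 3 then 1 - 1 / (p : ℝ) else 1) := by
    unfold VA
    rw [prod_filter]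
    refine prod_congr rfl fun p _ => ?_
    unfold ic A3
    by_cases h1 : p.Prime <;> by_cases h2 : p % 4 = 3
    · have : 2 < p := by omega
      simp [h1, h2, this]
    · simp [h1, h2]
    · simp [h1, h2]
    · simp [h1, h2]
  have hT := h1 z hz
  have hV := (h2 2 z le_rfl hz).2
  set S := (Icc 1 z).filter Nat.Prime with hS
  have hprime : ∀ p ∈ S, p.Prime := fun p hp => (mem_filter.1 hp).2
  have hle1 : ∀ p ∈ S, 0 ≤ 1 - 1 / (p : ℝ) := by
    intro p hp
    have : (1 : ℝ) ≤ p := by exact_mod_cast (hprime p hp).one_lt.le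
    rw [sub_nonneg, div_le_one (by linarith)]
    exact this
  -- the comparison
  have key : ∏ p ∈ S, (if p % 4 = 3 then (if p ∣ j then 1 else 1 - 2 / (p : ℝ)) else
      1 - 1 / (p : ℝ)) ≤ (∏ p ∈ S, (if True then 1 - 1 / (p : ℝ) else 1)) *
        (∏ p ∈ S, (if p % 4 = 3 then 1 - 1 / (p : ℝ) else 1)) *
        ∏ p ∈ S, (if p % 4 = 3 ∧ p ∣ j then (1 - 2 / (p : ℝ))⁻¹ else 1) := by
    rw [← prod_mul_distrib, ← prod_mul_distrib]
    refine prod_le_prod (fun p hp => ?_) fun p hp => ?_
    · split_ifs with ha hb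
      · norm_num
      · have h3 : (3 : ℝ) ≤ p := by exact_mod_cast three_le_of_mod ha
        rw [sub_nonneg, div_le_one (by linarith)]
        linarith
      · exact hle1 p hp
    · by_cases ha : p % 4 = 3
      · have h3 : (3 : ℝ) ≤ p := by exact_mod_cast three_le_of_mod ha
        have h0 : (0 : ℝ) < p := by linarith
        have hpos : 0 < 1 - 2 / (p : ℝ) := by
          rw [sub_pos, div_lt_one h0]
          linarith
        have hsq2 : 1 - 2 / (p : ℝ) ≤ (1 - 1 / (p : ℝ)) * (1 - 1 / (p : ℝ)) := by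
          have : (1 - 1 / (p : ℝ)) * (1 - 1 / (p : ℝ)) = 1 - 2 / (p : ℝ) + (1 / (p : ℝ)) ^ 2 := by
            ring
          rw [this]
          have := sq_nonneg (1 / (p : ℝ))
          linarith
        by_cases hb : p ∣ j
        · simp only [ha, hb, if_true, and_self]
          rw [← div_eq_mul_inv, le_div_iff₀ hpos, one_mul]
          exact hsq2
        · simp only [ha, hb, if_true, if_false, and_false, mul_one]
          exact hsq2
      · simp only [ha, if_false, false_and, if_true, mul_one]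
        exact le_rfl
  have hhp : ∏ p ∈ S, (if p % 4 = 3 ∧ p ∣ j then (1 - 2 / (p : ℝ))⁻¹ else 1) ≤ hp j := by
    rw [← prod_filter, hp_eq]
    have hsub : S.filter (fun p => p % 4 = 3 ∧ p ∣ j) ⊆ F3 j := by
      intro p hp
      rw [mem_filter] at hp
      exact mem_F3.2 ⟨⟨hprime p hp.1, hp.2.2, hj.ne'⟩, hp.2.1⟩
    rw [← prod_sdiff hsub]
    refine le_mul_of_one_le_left (prod_nonneg fun p hp => ?_) (one_le_prod fun p hp => ?_)
    · exact zero_le_one.trans (fac_one_le (mem_filter.1 hp).2.1)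
    · exact fac_one_le (mem_F3.1 (mem_sdiff.1 hp).1).2
  rw [← e1, ← e2] at key
  have hVT0 : 0 ≤ VA (fun _ => True) z := by
    rw [e1]
    refine prod_nonneg fun p hp => ?_
    rw [if_pos trivial]
    exact hle1 p hp
  have hV0 : 0 ≤ VA (A3 2) z := by
    rw [e2]
    refine prod_nonneg fun p hp => ?_
    split_ifs
    · exact hle1 p hp
    · norm_num
  have hhp0 : 0 ≤ hp j := zero_le_one.trans (one_le_hp j)
  have hlog2 : 0 ≤ Real.log ((2 : ℕ) : ℝ) := Real.log_nonneg (by norm_num)
  have e3 : √(Real.log ((2 : ℕ) : ℝ) / Real.log z) = √(Real.log 2) / √(Real.log z) := by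
    rw [Real.sqrt_div hlog2]
    norm_num
  rw [e3] at hV
  calc _ ≤ VA (fun _ => True) z * VA (A3 2) z * _ := key
    _ ≤ VA (fun _ => True) z * VA (A3 2) z * hp j :=
        mul_le_mul_of_nonneg_left hhp (mul_nonneg hVT0 hV0)
    _ ≤ (C₁ / Real.log z) * (C₂ * (√(Real.log 2) / √(Real.log z))) * hp j :=
        mul_le_mul_of_nonneg_right (mul_le_mul hT hV hV0 (by positivity)) hhp0
    _ = (C₁ * (C₂ * √(Real.log 2))) * hp j / (Real.log z * √(Real.log z)) := by
        field_simp
    _ ≤ (C₁ * (C₂ * √(Real.log 2)) + 1) * hp j / (Real.log z * √(Real.log z)) := by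
        apply div_le_div_of_nonneg_right _ (by positivity)
        apply mul_le_mul_of_nonneg_right _ hhp0
        linarith

end Pool.Agent.H90.LCL
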