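import Pool.Agent.H90.LCL.CLS
import Pool.Agent.H90.LCL.SQC

/-!
# CTH: the number of the exceptional integers
-/

set_option autoImplicit false

namespace Pool.Agent.H90.LCL

open Finset Filter Pool.Agent.H90.LC

theorem large_ratio_real (R : ℝ) (hR : 0 < R) : ∃ X₀ : ℝ, ∀ X : ℝ, X₀ ≤ X →
    1 ≤ Real.log X ∧ 1 ≤ Real.log (Real.log X) ∧ R ≤ Real.log X / Real.log (Real.log X) := by
  have h1 : ∀ᶠ u : ℝ in atTop, 1 ≤ u ∧ 1 ≤ Real.log u ∧ R ≤ u / Real.log u := by
    have h2 := Real.isLittleO_log_id_atTop.def (show (0 : ℝ) < 1 / R by positivity)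
    have h3 : ∀ᶠ u : ℝ in atTop, 1 ≤ Real.log u :=
      Real.tendsto_log_atTop.eventually (eventually_ge_atTop 1)
    filter_upwards [h2, h3, eventually_ge_atTop (1 : ℝ)] with u hu1 hu2 hu3
    refine ⟨hu3, hu2, ?_⟩
    rw [Real.norm_of_nonneg (by linarith), id, Real.norm_of_nonneg (by linarith)] at hu1
    rw [le_div_iff₀ (by linarith)]
    calc R * Real.log u ≤ R * (1 / R * u) := mul_le_mul_of_nonneg_left hu1 hR.le
      _ = u := by field_simp
  obtain ⟨X₀, hX⟩ := eventually_atTop.1 (Real.tendsto_log_atTop.eventually h1)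
  exact ⟨X₀, hX⟩

/-- The number of the exceptional integers. -/
theorem count_exc {c₂ C₃ : ℝ} (hc₂ : 0 < c₂) (hc₂' : c₂ ≤ 1) (hC₃ : 0 < C₃) {Y : ℕ}
    (hcls : ∀ y : ℕ, Y ≤ y →
      ∃ K M a : ℕ, c₂ * √(Real.log y / Real.log (Real.log y)) / 2 ≤ K ∧ 6 ∣ M ∧ 0 < M ∧
        Real.log M ≤ C₃ * y ∧ ∀ n : ℕ, n ≡ a [MOD M] → n % 8 = 3 ∧
          (∀ p : ℕ, p.Prime → p ∣ M → ¬ p ^ 2 ∣ n) ∧
          ∀ x₁ x₂ x₃ : ℤ, x₁ ^ 2 + x₂ ^ 2 + x₃ ^ 2 = n → ((K * y : ℕ) : ℝ) < |(x₃ : ℝ)|) :
    ∃ C : ℝ, 0 < C ∧ ∀ (X : ℝ) (N : ℕ), C ≤ X →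
      Real.exp (C * (X * √(Real.log (Real.log X) / Real.log X))) ≤ N →
      ∃ S : Finset ℕ, (∀ n ∈ S, n ≤ N ∧ n % 8 = 3 ∧ Squarefree n ∧
          ∀ x₁ x₂ x₃ : ℤ, x₁ ^ 2 + x₂ ^ 2 + x₃ ^ 2 = n → X < |(x₃ : ℝ)|) ∧
        N * Real.exp (-(C * (X * √(Real.log (Real.log X) / Real.log X)))) ≤ S.card := by
  set D : ℝ := 8 / c₂ with hD
  have hD8 : 8 ≤ D := by
    rw [hD, le_div_iff₀ hc₂]
    linarith
  have hDc : c₂ * D = 8 := by
    rw [hD]
    field_simp
  clear_value D
  have hDpos : 0 < D := by linarith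
  obtain ⟨X₀, hX₀⟩ := large_ratio_real ((2 * D) ^ 2) (by positivity)
  refine ⟨4 * C₃ * D + 6 + |X₀| + (Y : ℝ) ^ 2, by positivity, fun X N hX hN => ?_⟩
  set C : ℝ := 4 * C₃ * D + 6 + |X₀| + (Y : ℝ) ^ 2 with hC
  have hCD : 4 * C₃ * D + 6 ≤ C := by
    have := abs_nonneg X₀
    have := sq_nonneg (Y : ℝ)
    linarith
  have hCX : X₀ ≤ X := by
    have := le_abs_self X₀
    have := sq_nonneg (Y : ℝ)
    have : 0 ≤ 4 * C₃ * D := by positivity
    linarith
  have hCY : (Y : ℝ) ^ 2 ≤ X := by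
    have := abs_nonneg X₀
    have : 0 ≤ 4 * C₃ * D := by positivity
    linarith
  have hX6 : 6 ≤ X := by
    have := abs_nonneg X₀
    have := sq_nonneg (Y : ℝ)
    have : 0 ≤ 4 * C₃ * D := by positivity
    linarith
  clear_value C
  obtain ⟨hL1, hLL1, hratio⟩ := hX₀ X hCX
  clear hX₀
  set L := Real.log X with hL
  set LL := Real.log L with hLL
  have hXpos : 0 < X := by linarith
  have hLpos : 0 < L := by linarith
  have hLLpos : 0 < LL := by linarith
  set q := √(LL / L) with hq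
  have hqpos : 0 < q := Real.sqrt_pos.2 (by positivity)
  have hqinv : √(L / LL) * q = 1 := by
    rw [hq, ← Real.sqrt_mul (by positivity)]
    have : L / LL * (LL / L) = 1 := by field_simp
    rw [this, Real.sqrt_one]
  have hq2 : q * (2 * D) ≤ 1 := by
    have h1 : 2 * D ≤ √(L / LL) := Real.le_sqrt_of_sq_le hratio
    calc q * (2 * D) ≤ q * √(L / LL) := mul_le_mul_of_nonneg_left h1 hqpos.le
      _ = 1 := by rw [mul_comm]; exact hqinv
  set g := X * q with hg
  have hgpos : 0 < g := by positivity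
  -- `g` is at least the root of `X`
  have hsX : √X ≤ g := by
    have h1 : 1 / √L ≤ q := by
      rw [hq, one_div, ← Real.sqrt_inv]
      apply Real.sqrt_le_sqrt
      rw [inv_eq_one_div]
      exact div_le_div_of_nonneg_right hLL1 hLpos.le
    have h2 : √L ≤ √X := Real.sqrt_le_sqrt
      ((Real.log_le_sub_one_of_pos hXpos).trans (by linarith))
    have h3 : 0 < √L := Real.sqrt_pos.2 hLpos
    have h4 : √X * √X = X := Real.mul_self_sqrt hXpos.le
    calc √X = √X * √L * (1 / √L) := by field_simp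
      _ ≤ √X * √X * (1 / √L) := by
          apply mul_le_mul_of_nonneg_right _ (by positivity)
          exact mul_le_mul_of_nonneg_left h2 (Real.sqrt_nonneg _)
      _ = X * (1 / √L) := by rw [h4]
      _ ≤ X * q := mul_le_mul_of_nonneg_left h1 hXpos.le
  have hsX2 : 2 ≤ √X := Real.le_sqrt_of_sq_le (by linarith)
  have hg1 : 2 ≤ g := hsX2.trans hsX
  set y : ℕ := ⌈D * g⌉₊ with hy
  have hyge : D * g ≤ y := Nat.le_ceil _
  have hylt : (y : ℝ) < D * g + 1 := Nat.ceil_lt_add_one (by positivity)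
  clear_value y
  have hDg : 16 ≤ D * g := by nlinarith
  have hyle : (y : ℝ) ≤ 2 * (D * g) := by linarith
  have hyX : (y : ℝ) ≤ X := by
    have h1 : D * g ≤ X / 2 := by
      have : X * (q * (2 * D)) ≤ X * 1 := mul_le_mul_of_nonneg_left hq2 hXpos.le
      have e : D * g = X * (q * (2 * D)) / 2 := by
        rw [hg]
        ring
      rw [e]
      linarith
    linarith
  have hysX : √X ≤ y := by
    have : g ≤ D * g := le_mul_of_one_le_left hgpos.le (by linarith)
    linarith
  have hyY : Y ≤ y := by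
    have h1 : (Y : ℝ) ≤ √X := Real.le_sqrt_of_sq_le hCY
    have : (Y : ℝ) ≤ y := h1.trans hysX
    exact_mod_cast this
  have hy0 : (0 : ℝ) < y := by linarith
  obtain ⟨K, M, a, hK, hM6, hMpos, hMlog, hcl⟩ := hcls y hyY
  have hly : L / 2 ≤ Real.log y := by
    have h5 : Real.log (√X) = Real.log X / 2 := Real.log_sqrt hXpos.le
    rw [hL, ← h5]
    exact Real.log_le_log (Real.sqrt_pos.2 hXpos) hysX
  have hly2 : Real.log y ≤ L := Real.log_le_log hy0 hyX
  have hlypos : 0 < Real.log y := by linarith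
  have hlly : Real.log (Real.log y) ≤ LL := Real.log_le_log hlypos hly2
  have hllypos : 0 < Real.log (Real.log y) := by
    apply Real.log_pos
    have h1 : (2 : ℝ) < L := by
      have h2 : Real.exp 1 ≤ L := by
        rw [← Real.le_log_iff_exp_le hLpos]
        exact hLL1
      have := Real.exp_one_gt_d9
      linarith
    linarith
  have hKy : X < ((K * y : ℕ) : ℝ) := by
    have h1 : √(L / LL) / 2 ≤ √(Real.log y / Real.log (Real.log y)) := by
      have h2 : L / LL / 4 ≤ Real.log y / Real.log (Real.log y) := by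
        calc L / LL / 4 ≤ (L / 2) / LL := by
              rw [div_div, div_div]
              apply div_le_div_of_nonneg_left hLpos.le (by positivity)
              linarith
          _ ≤ Real.log y / LL := div_le_div_of_nonneg_right hly hLLpos.le
          _ ≤ Real.log y / Real.log (Real.log y) :=
              div_le_div_of_nonneg_left hlypos.le hllypos hlly
      calc √(L / LL) / 2 = √(L / LL / 4) := by
            rw [Real.sqrt_div (by positivity) 4]
            congr 1
            rw [show (4 : ℝ) = 2 ^ 2 by norm_num, Real.sqrt_sq (by norm_num)]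
        _ ≤ _ := Real.sqrt_le_sqrt h2
    have h3 : c₂ * (√(L / LL) / 2) / 2 ≤ K := by
      refine le_trans ?_ hK
      apply div_le_div_of_nonneg_right _ (by norm_num)
      exact mul_le_mul_of_nonneg_left h1 hc₂.le
    have h4 : c₂ * (√(L / LL) / 2) / 2 * (D * g) ≤ K * y :=
      mul_le_mul h3 hyge (by positivity) (Nat.cast_nonneg K)
    have h5 : c₂ * (√(L / LL) / 2) / 2 * (D * g) = 2 * X := by
      calc c₂ * (√(L / LL) / 2) / 2 * (D * g) =
            (c₂ * D) * (√(L / LL) * q) * X / 4 := by rw [hg]; ring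
        _ = 2 * X := by rw [hDc, hqinv]; ring
    rw [h5] at h4
    push_cast
    linarith
  have hMR : (0 : ℝ) < M := by exact_mod_cast hMpos
  have hMlog2 : Real.log M ≤ 2 * C₃ * D * g := by
    calc Real.log M ≤ C₃ * y := hMlog
      _ ≤ C₃ * (2 * (D * g)) := mul_le_mul_of_nonneg_left hyle hC₃.le
      _ = 2 * C₃ * D * g := by ring
  have hCg : 4 * C₃ * D * g + 6 * g ≤ C * g := by
    have := mul_le_mul_of_nonneg_right hCD hgpos.le
    linarith
  have hexp6 : (400 : ℝ) ≤ Real.exp 12 := by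
    have h1 : (2.7 : ℝ) ≤ Real.exp 1 := by
      have := Real.exp_one_gt_d9
      linarith
    have h2 : Real.exp 12 = Real.exp 1 ^ 12 := by
      rw [← Real.exp_nat_mul]
      norm_num
    rw [h2]
    calc (400 : ℝ) ≤ 2.7 ^ 12 := by norm_num
      _ ≤ Real.exp 1 ^ 12 := pow_le_pow_left₀ (by norm_num) h1 12
  have h12 : 12 ≤ 6 * g := by linarith
  have hMexp : (M : ℝ) ≤ Real.exp (2 * C₃ * D * g) := by
    rw [← Real.log_le_iff_le_exp hMR]
    exact hMlog2
  have h400 : 400 * M ^ 2 ≤ N := by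
    have h1 : (400 : ℝ) * (M : ℝ) ^ 2 ≤ N := by
      calc (400 : ℝ) * (M : ℝ) ^ 2 ≤ Real.exp 12 * (Real.exp (2 * C₃ * D * g)) ^ 2 := by
            apply mul_le_mul hexp6 _ (by positivity) (by positivity)
            exact pow_le_pow_left₀ hMR.le hMexp 2
        _ = Real.exp (12 + 4 * C₃ * D * g) := by
            rw [← Real.exp_nat_mul, ← Real.exp_add]
            congr 1
            push_cast
            ring
        _ ≤ Real.exp (C * g) := by
            apply Real.exp_le_exp.2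
            linarith
        _ ≤ N := hN
    exact_mod_cast h1
  have hsq := sqc M a N hM6 hMpos (fun n hn => (hcl n hn).2.1) h400
  classical
  refine ⟨(Icc 1 N).filter (fun n => n ≡ a [MOD M] ∧ Squarefree n), fun n hn => ?_, ?_⟩
  · rw [mem_filter, mem_Icc] at hn
    obtain ⟨h1, h2, h3⟩ := hcl n hn.2.1
    exact ⟨hn.1.2, h1, hn.2.2, fun x₁ x₂ x₃ hx => hKy.trans (h3 x₁ x₂ x₃ hx)⟩
  · refine le_trans ?_ hsq
    rw [Real.exp_neg, ← div_eq_mul_inv]
    apply div_le_div_of_nonneg_left (Nat.cast_nonneg N) (by positivity)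
    calc 4 * (M : ℝ) ≤ Real.exp 12 * Real.exp (2 * C₃ * D * g) := by
          apply mul_le_mul _ hMexp hMR.le (by positivity)
          linarith
      _ = Real.exp (12 + 2 * C₃ * D * g) := by rw [← Real.exp_add]
      _ ≤ Real.exp (C * g) := by
          apply Real.exp_le_exp.2
          have : 0 ≤ 2 * C₃ * D * g := by positivity
          linarith

end Pool.Agent.H90.LCL
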