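import Pool.Agent.H90.LCL.CTH

/-!
# DEL: the number of the exceptional integers, second form
-/

set_option autoImplicit false

namespace Pool.Agent.H90.LCL

open Finset Filter Pool.Agent.H90.LC

theorem delta {C : ℝ} (hC : 0 < C) (h : ∀ (X : ℝ) (N : ℕ), C ≤ X →
      Real.exp (C * (X * √(Real.log (Real.log X) / Real.log X))) ≤ N →
      ∃ S : Finset ℕ, (∀ n ∈ S, n ≤ N ∧ n % 8 = 3 ∧ Squarefree n ∧
          ∀ x₁ x₂ x₃ : ℤ, x₁ ^ 2 + x₂ ^ 2 + x₃ ^ 2 = n → X < |(x₃ : ℝ)|) ∧
        N * Real.exp (-(C * (X * √(Real.log (Real.log X) / Real.log X)))) ≤ S.card)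
    (δ : ℝ) (hδ : 0 < δ) : ∃ c : ℝ, 0 < c ∧ ∃ N₀ : ℕ, ∀ N : ℕ, N₀ ≤ N →
      ∃ S : Finset ℕ, (∀ n ∈ S, n ≤ N ∧ n % 8 = 3 ∧ Squarefree n ∧
          ∀ x₁ x₂ x₃ : ℤ, x₁ ^ 2 + x₂ ^ 2 + x₃ ^ 2 = n →
            c * Real.log N * √(Real.log (Real.log N) / Real.log (Real.log (Real.log N))) <
              |(x₃ : ℝ)|) ∧
        (N : ℝ) ^ (1 - δ) ≤ S.card := by
  set d : ℝ := min δ 1 with hd
  have hd0 : 0 < d := lt_min hδ one_pos
  have hd1 : d ≤ 1 := min_le_right _ _
  have hdδ : d ≤ δ := min_le_left _ _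
  set c : ℝ := min (d / (2 * C)) 1 with hc
  have hc0 : 0 < c := lt_min (by positivity) one_pos
  have hc1 : c ≤ 1 := min_le_right _ _
  have hcd : 2 * C * c ≤ d := by
    have : c ≤ d / (2 * C) := min_le_left _ _
    calc 2 * C * c ≤ 2 * C * (d / (2 * C)) := mul_le_mul_of_nonneg_left this (by positivity)
      _ = d := by field_simp
  clear_value d c
  obtain ⟨L₀, hL₀⟩ := large_ratio_real 1 one_pos
  have hlogN : Tendsto (fun N : ℕ => Real.log (N : ℝ)) atTop atTop :=
    Real.tendsto_log_atTop.comp tendsto_natCast_atTop_atTop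
  obtain ⟨N₀, hN₀⟩ := eventually_atTop.1
    (hlogN.eventually (eventually_ge_atTop (|L₀| + C / c + (1 / c) ^ 2)))
  refine ⟨c, hc0, max N₀ 1, fun N hN => ?_⟩
  have hL := hN₀ N ((le_max_left _ _).trans hN)
  have hN1 : 1 ≤ N := (le_max_right _ _).trans hN
  have hNR : (1 : ℝ) ≤ N := by exact_mod_cast hN1
  set l := Real.log (N : ℝ) with hl
  have h1 : L₀ ≤ l := by
    have := le_abs_self L₀
    have : 0 ≤ C / c := by positivity
    have : 0 ≤ (1 / c) ^ 2 := by positivity
    linarith
  have h2 : C / c ≤ l := by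
    have := abs_nonneg L₀
    have : 0 ≤ (1 / c) ^ 2 := by positivity
    linarith
  have h3 : (1 / c) ^ 2 ≤ l := by
    have := abs_nonneg L₀
    have : 0 ≤ C / c := by positivity
    linarith
  obtain ⟨hl1, hl2, hl3⟩ := hL₀ l h1
  clear hL₀ hN₀ hL
  have hlpos : 0 < l := lt_of_lt_of_le (by positivity) h3
  set u := Real.log l with hu
  set v := Real.log u with hv
  have hupos : 0 < u := by linarith
  have hvpos : 0 < v := by linarith
  set P := √(u / v) with hP
  have hP1 : 1 ≤ P := Real.le_sqrt_of_sq_le (by rw [one_pow]; exact hl3)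
  have hPu : P ≤ √u := Real.sqrt_le_sqrt (div_le_self hupos.le hl2)
  have hlogle : u ≤ l := (Real.log_le_sub_one_of_pos hlpos).trans (by linarith)
  have hPl : P ≤ l := by
    refine hPu.trans ?_
    rw [Real.sqrt_le_left hlpos.le]
    nlinarith
  set X := c * l * P with hX
  have hXpos : 0 < X := by positivity
  have hXC : C ≤ X := by
    have h4 : C ≤ c * l := by
      rw [div_le_iff₀ hc0] at h2
      linarith
    calc C ≤ c * l := h4
      _ = c * l * 1 := (mul_one _).symm
      _ ≤ c * l * P := mul_le_mul_of_nonneg_left hP1 (by positivity)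
  have hXs : √l ≤ X := by
    have h5 : 1 / c ≤ √l := Real.le_sqrt_of_sq_le h3
    have h6 : √l * √l = l := Real.mul_self_sqrt hlpos.le
    have h7 : 1 ≤ c * √l := by
      calc (1 : ℝ) = c * (1 / c) := by field_simp
        _ ≤ c * √l := mul_le_mul_of_nonneg_left h5 hc0.le
    calc √l = 1 * √l * 1 := by ring
      _ ≤ (c * √l) * √l * P := by
          apply mul_le_mul _ hP1 zero_le_one (by positivity)
          exact mul_le_mul_of_nonneg_right h7 (Real.sqrt_nonneg _)
      _ = c * (√l * √l) * P := by ring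
      _ = X := by rw [h6]
  have hXle : X ≤ l ^ 2 := by
    calc X = c * (l * P) := by rw [hX]; ring
      _ ≤ 1 * (l * l) := mul_le_mul hc1 (mul_le_mul_of_nonneg_left hPl hlpos.le)
          (by positivity) zero_le_one
      _ = l ^ 2 := by ring
  have hlX1 : u / 2 ≤ Real.log X := by
    have h5 : Real.log (√l) = Real.log l / 2 := Real.log_sqrt hlpos.le
    rw [hu, ← h5]
    exact Real.log_le_log (Real.sqrt_pos.2 hlpos) hXs
  have hlX2 : Real.log X ≤ 2 * u := by
    have h5 : Real.log (l ^ 2) = 2 * Real.log l := by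
      rw [Real.log_pow]
      norm_num
    rw [hu, ← h5]
    exact Real.log_le_log hXpos hXle
  have hlXpos : 0 < Real.log X := by linarith
  have hllX : Real.log (Real.log X) ≤ 2 * v := by
    have h5 : Real.log (Real.log X) ≤ Real.log (2 * u) := Real.log_le_log hlXpos hlX2
    rw [Real.log_mul (by norm_num) hupos.ne'] at h5
    have h6 : Real.log 2 ≤ 1 := by
      have := Real.log_two_lt_d9
      linarith
    linarith
  have hroot : √(Real.log (Real.log X) / Real.log X) ≤ 2 * √(v / u) := by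
    have h5 : Real.log (Real.log X) / Real.log X ≤ 4 * (v / u) := by
      calc Real.log (Real.log X) / Real.log X ≤ (2 * v) / Real.log X :=
            div_le_div_of_nonneg_right hllX hlXpos.le
        _ ≤ (2 * v) / (u / 2) := div_le_div_of_nonneg_left (by positivity) (by positivity) hlX1
        _ = 4 * (v / u) := by field_simp; ring
    calc √(Real.log (Real.log X) / Real.log X) ≤ √(4 * (v / u)) := Real.sqrt_le_sqrt h5
      _ = 2 * √(v / u) := by
        rw [Real.sqrt_mul (by norm_num)]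
        congr 1
        rw [show (4 : ℝ) = 2 ^ 2 by norm_num, Real.sqrt_sq (by norm_num)]
  have hPP : P * √(v / u) = 1 := by
    rw [hP, ← Real.sqrt_mul (by positivity)]
    have : u / v * (v / u) = 1 := by field_simp
    rw [this, Real.sqrt_one]
  have hg : C * (X * √(Real.log (Real.log X) / Real.log X)) ≤ d * l := by
    calc C * (X * √(Real.log (Real.log X) / Real.log X)) ≤ C * (X * (2 * √(v / u))) :=
          mul_le_mul_of_nonneg_left (mul_le_mul_of_nonneg_left hroot hXpos.le) hC.le
      _ = 2 * C * c * l * (P * √(v / u)) := by rw [hX]; ring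
      _ = 2 * C * c * l := by rw [hPP, mul_one]
      _ ≤ d * l := mul_le_mul_of_nonneg_right hcd hlpos.le
  have hN0 : (0 : ℝ) < N := by linarith
  have hexpl : Real.exp l = N := Real.exp_log hN0
  obtain ⟨S, hS, hS2⟩ := h X N hXC (by
    rw [← hexpl]
    apply Real.exp_le_exp.2
    refine hg.trans ?_
    calc d * l ≤ 1 * l := mul_le_mul_of_nonneg_right hd1 hlpos.le
      _ = l := one_mul l)
  refine ⟨S, hS, le_trans ?_ hS2⟩
  rw [Real.rpow_def_of_pos hN0, ← hl]
  have e : (N : ℝ) * Real.exp (-(C * (X * √(Real.log (Real.log X) / Real.log X)))) =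
      Real.exp (l - C * (X * √(Real.log (Real.log X) / Real.log X))) := by
    rw [Real.exp_sub, Real.exp_neg, hexpl]
    exact (div_eq_mul_inv _ _).symm
  rw [e]
  apply Real.exp_le_exp.2
  have : d * l ≤ δ * l := mul_le_mul_of_nonneg_right hdδ hlpos.le
  have e2 : l * (1 - δ) = l - δ * l := by ring
  rw [e2]
  linarith

end Pool.Agent.H90.LCL
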