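import Pool.Agent.H90.LC.Targets

/-!
# KIL: no representation with a small coordinate
-/

set_option autoImplicit false

namespace Pool.Agent.H90.LCL

open Finset Pool.Agent.H90.LC

theorem even_fac {a b m p : ℕ} (hm : m = a ^ 2 + b ^ 2) (hm0 : m ≠ 0) (hp : p.Prime)
    (h3 : p % 4 = 3) : Even (m.factorization p) := by
  by_cases h : p ∣ m
  · rw [Nat.factorization_def m hp]
    exact (Nat.eq_sq_add_sq_iff.1 ⟨a, b, hm⟩) p (Nat.mem_primeFactors.2 ⟨hp, h, hm0⟩) h3
  · rw [Nat.factorization_eq_zero_of_not_dvd h]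
    exact Even.zero

theorem fac_eq {m p v : ℕ} (hp : p.Prime) (h1 : p ^ v ∣ m) (h2 : ¬ p ^ (v + 1) ∣ m) :
    m ≠ 0 ∧ m.factorization p = v := by
  have hm : m ≠ 0 := fun h => h2 (h ▸ dvd_zero _)
  refine ⟨hm, ?_⟩
  have h3 := (hp.pow_dvd_iff_le_factorization hm).1 h1
  have h4 : ¬ v + 1 ≤ m.factorization p := fun h => h2 ((hp.pow_dvd_iff_le_factorization hm).2 h)
  omega

theorem core {y Y B : ℕ} {f : ℕ → ℕ} {n : ℕ} (h : Att y Y B f) (hc : Con y B f n) {a b x : ℕ}
    (hn : a ^ 2 + b ^ 2 + x ^ 2 = n) (hx : x ≤ B) : False := by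
  obtain ⟨h8, h3, hS⟩ := hc
  rcases Nat.even_or_odd x with he | ho
  · obtain ⟨k, hk⟩ := he
    have hx2 : x ^ 2 % 4 = 0 := by
      rw [hk, Nat.pow_mod]
      have : (k + k) % 4 = 0 ∨ (k + k) % 4 = 2 := by omega
      rcases this with e | e <;> rw [e]
    have ha : a ^ 2 % 4 = 0 ∨ a ^ 2 % 4 = 1 := by
      rw [Nat.pow_mod]
      have : a % 4 = 0 ∨ a % 4 = 1 ∨ a % 4 = 2 ∨ a % 4 = 3 := by omega
      rcases this with e | e | e | e <;> rw [e] <;> norm_num
    have hb : b ^ 2 % 4 = 0 ∨ b ^ 2 % 4 = 1 := by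
      rw [Nat.pow_mod]
      have : b % 4 = 0 ∨ b % 4 = 1 ∨ b % 4 = 2 ∨ b % 4 = 3 := by omega
      rcases this with e | e | e | e <;> rw [e] <;> norm_num
    omega
  · have hx1 : 1 ≤ x := ho.pos
    have hx2 : x % 2 = 1 := Nat.odd_iff.1 ho
    by_cases hxS : x ∈ Sur y B
    · obtain ⟨hq, hq3, hyq, -⟩ := h.1 x hxS
      have h4 := hS x hxS
      set q := f x with hqd
      have h5 : a ^ 2 + b ^ 2 ≡ q [MOD q ^ 2] := by
        have : a ^ 2 + b ^ 2 + x ^ 2 ≡ q + x ^ 2 [MOD q ^ 2] := by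
          rw [hn, add_comm q]
          exact h4
        exact Nat.ModEq.add_right_cancel' _ this
      have h6 : q ∣ a ^ 2 + b ^ 2 :=
        ((h5.of_dvd (Dvd.intro_left (q ^ 1) (by ring))).dvd_iff dvd_rfl).2 dvd_rfl
      have h7 : ¬ q ^ 2 ∣ a ^ 2 + b ^ 2 := by
        intro h8
        have h9 : q ^ 2 ∣ q := (h5.dvd_iff dvd_rfl).1 h8
        have h10 := Nat.le_of_dvd hq.pos h9
        have h11 := hq.two_le
        nlinarith
      obtain ⟨hm0, hv⟩ := fac_eq (v := 1) hq (by rwa [pow_one]) h7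
      have := even_fac rfl hm0 hq hq3
      rw [hv] at this
      exact Nat.not_even_one this
    · have h4 : ∃ p : ℕ, p.Prime ∧ p % 4 = 3 ∧ p ≤ y ∧
          ¬ Even (((2 * x - 1) * (2 * x + 1)).factorization p) := by
        by_contra hcon
        push Not at hcon
        apply hxS
        unfold Sur
        classical
        rw [mem_filter, mem_Icc]
        exact ⟨⟨hx1, hx⟩, hx2, fun p hp hp3 hpy => hcon p hp hp3 hpy⟩
      obtain ⟨p, hp, hp3, hpy, hodd⟩ := h4
      have hpP : p ∈ P3 y := by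
        unfold P3
        rw [mem_filter, mem_Icc]
        exact ⟨⟨hp.one_lt.le, hpy⟩, hp, hp3⟩
      have h5 := h3 p hpP
      set N := (2 * x - 1) * (2 * x + 1) with hN
      have hN1 : N + 1 = 4 * x ^ 2 := by
        rw [hN]
        obtain ⟨z, rfl⟩ : ∃ z, x = z + 1 := ⟨x - 1, by omega⟩
        have : 2 * (z + 1) - 1 = 2 * z + 1 := by omega
        rw [this]
        ring
      have hN0 : N ≠ 0 := by
        have : 1 ≤ x ^ 2 := Nat.one_le_pow _ _ hx1
        omega
      set v := N.factorization p with hv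
      have hd1 : p ^ v ∣ N := (hp.pow_dvd_iff_le_factorization hN0).2 le_rfl
      have hd2 : ¬ p ^ (v + 1) ∣ N := by
        intro hd
        have := (hp.pow_dvd_iff_le_factorization hN0).1 hd
        omega
      have hlt : p ^ v < p ^ kk B p := by
        have h6 : p ^ v ≤ N := Nat.le_of_dvd (Nat.pos_of_ne_zero hN0) hd1
        have h7 : x ^ 2 ≤ B ^ 2 := Nat.pow_le_pow_left hx 2
        have h8' : 4 * B ^ 2 < p ^ kk B p := by
          unfold kk
          exact Nat.lt_pow_succ_log_self hp.one_lt _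
        omega
      have hvk : v + 1 ≤ kk B p := (Nat.pow_lt_pow_iff_right hp.one_lt).1 hlt
      have hdv : p ^ (v + 1) ∣ 4 * (a ^ 2 + b ^ 2) + N := by
        have h6 : 4 * n ≡ 1 [MOD p ^ (v + 1)] := h5.of_dvd (pow_dvd_pow p hvk)
        have h7 : (4 * (a ^ 2 + b ^ 2) + N) + 1 ≡ 0 + 1 [MOD p ^ (v + 1)] := by
          have e : (4 * (a ^ 2 + b ^ 2) + N) + 1 = 4 * n := by
            rw [← hn]
            omega
          rw [e]
          exact h6
        exact (Nat.modEq_zero_iff_dvd).1 (Nat.ModEq.add_right_cancel' _ h7)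
      have hcop : Nat.Coprime p 4 := by
        rw [Nat.coprime_comm]
        have : p ≠ 2 := by omega
        have h6 : Nat.Coprime 2 p := (Nat.coprime_primes Nat.prime_two hp).2 (Ne.symm this)
        have : Nat.Coprime (2 ^ 2) p := Nat.Coprime.pow_left 2 h6
        exact this
      have hm1 : p ^ v ∣ a ^ 2 + b ^ 2 := by
        have h6 : p ^ v ∣ 4 * (a ^ 2 + b ^ 2) + N := dvd_trans (pow_dvd_pow p (Nat.le_succ v)) hdv
        have h7 : p ^ v ∣ 4 * (a ^ 2 + b ^ 2) := (Nat.dvd_add_left hd1).1 h6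
        exact (Nat.Coprime.pow_left v hcop).dvd_of_dvd_mul_left h7
      have hm2 : ¬ p ^ (v + 1) ∣ a ^ 2 + b ^ 2 := by
        intro h6
        exact hd2 ((Nat.dvd_add_right (Dvd.dvd.mul_left h6 4)).1 hdv)
      obtain ⟨hm0, hfv⟩ := fac_eq hp hm1 hm2
      have := even_fac rfl hm0 hp hp3
      rw [hfv] at this
      exact hodd this

theorem pf_KIL : T_KIL := by
  intro y Y B f n h hc x₁ x₂ x₃ he
  by_contra hcon
  push Not at hcon
  have h1 : x₃.natAbs ≤ B := by
    have : ((x₃.natAbs : ℕ) : ℤ) ≤ B := by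
      rw [Int.natCast_natAbs]
      exact hcon
    exact_mod_cast this
  refine core h hc (a := x₁.natAbs) (b := x₂.natAbs) (x := x₃.natAbs) ?_ h1
  have : ((x₁.natAbs ^ 2 + x₂.natAbs ^ 2 + x₃.natAbs ^ 2 : ℕ) : ℤ) = n := by
    push_cast
    rw [sq_abs, sq_abs, sq_abs]
    exact he
  exact_mod_cast this

end Pool.Agent.H90.LCL
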