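import Pool.Agent.H90.LC.Targets

/-!
# LOW, NSQ: the modulus
-/

set_option autoImplicit false

namespace Pool.Agent.H90.LCL

open Finset Pool.Agent.H90.LC

theorem three_mem {y : ℕ} (hy : 3 ≤ y) : 3 ∈ P3 y := by
  unfold P3
  rw [mem_filter, mem_Icc]
  exact ⟨⟨by norm_num, hy⟩, Nat.prime_three, by norm_num⟩

theorem pow_dvd_MM {y B p : ℕ} (f : ℕ → ℕ) (hp : p ∈ P3 y) : p ^ kk B p ∣ MM y B f := by
  unfold MM
  exact Dvd.dvd.mul_right (Dvd.dvd.mul_left (dvd_prod_of_mem (fun p => p ^ kk B p) hp) _) _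

theorem eight_dvd_MM (y B : ℕ) (f : ℕ → ℕ) : 8 ∣ MM y B f := by
  unfold MM
  rw [mul_assoc]
  exact Dvd.intro _ rfl

theorem MM_pos {y Y B : ℕ} {f : ℕ → ℕ} (h : Att y Y B f) : 0 < MM y B f := by
  unfold MM
  refine Nat.mul_pos (Nat.mul_pos (by norm_num) (prod_pos fun p hp => ?_)) (prod_pos fun x hx => ?_)
  · unfold P3 at hp
    exact pow_pos (mem_filter.1 hp).2.1.pos _
  · exact pow_pos (h.1 x hx).1.pos _

theorem pf_LOW : T_LOW := by
  intro y Y B f hy h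
  have h3 := three_mem hy
  have hd := pow_dvd_MM (B := B) f h3
  have hpos := MM_pos h
  have hk : 3 ∣ 3 ^ kk B 3 := by
    unfold kk
    exact dvd_pow_self 3 (Nat.succ_ne_zero _)
  refine ⟨?_, hpos, ?_⟩
  · have h2 : 2 ∣ MM y B f := dvd_trans (by norm_num) (eight_dvd_MM y B f)
    have h3' : 3 ∣ MM y B f := hk.trans hd
    have : (2 * 3) ∣ MM y B f :=
      Nat.Coprime.mul_dvd_of_dvd_of_dvd (by norm_num) h2 h3'
    exact this
  · have h1 : 4 * B ^ 2 < 3 ^ kk B 3 := by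
      unfold kk
      exact Nat.lt_pow_succ_log_self (by norm_num) _
    exact h1.trans_le (Nat.le_of_dvd hpos hd)

theorem pf_NSQ : T_NSQ := by
  intro y Y B f n h hc p hp hpM hsq
  obtain ⟨h8, h3, hx⟩ := hc
  have hpn : p ∣ n := dvd_trans (Dvd.intro_left (p ^ 1) (by ring)) hsq
  unfold MM at hpM
  rcases (hp.dvd_mul).1 hpM with h1 | h1
  · rcases (hp.dvd_mul).1 h1 with h2 | h2
    · have : p = 2 := by
        have h4 : p ∣ 2 ^ 3 := by norm_num; exact h2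
        exact (Nat.prime_dvd_prime_iff_eq hp Nat.prime_two).1 (hp.dvd_of_dvd_pow h4)
      subst this
      omega
    · obtain ⟨q, hq, hpq⟩ := (Prime.dvd_finsetProd_iff hp.prime _).1 h2
      have hq' := hq
      unfold P3 at hq'
      have e : p = q := (Nat.prime_dvd_prime_iff_eq hp (mem_filter.1 hq').2.1).1
        (hp.dvd_of_dvd_pow hpq)
      subst e
      have h4 := h3 p hq
      have h5 : 4 * n ≡ 1 [MOD p] := h4.of_dvd (dvd_pow_self p (Nat.succ_ne_zero _))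
      have h6 : p ∣ 4 * n := Dvd.dvd.mul_left hpn 4
      have h7 : p ∣ 1 := (h5.dvd_iff dvd_rfl).1 h6
      exact hp.one_lt.ne' (Nat.dvd_one.1 h7)
  · obtain ⟨x, hxS, hpx⟩ := (Prime.dvd_finsetProd_iff hp.prime _).1 h1
    have hq := (h.1 x hxS).1
    have e : p = f x := (Nat.prime_dvd_prime_iff_eq hp hq).1 (hp.dvd_of_dvd_pow hpx)
    have h4 := hx x hxS
    rw [← e] at h4
    have h5 : p ^ 2 ∣ x ^ 2 + p := (h4.dvd_iff dvd_rfl).1 hsq
    have h6 : p ∣ x ^ 2 := by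
      have : p ∣ x ^ 2 + p := dvd_trans (Dvd.intro_left (p ^ 1) (by ring)) h5
      exact (Nat.dvd_add_left dvd_rfl).1 this
    have h7 : p ^ 2 ∣ x ^ 2 := pow_dvd_pow_of_dvd (hp.dvd_of_dvd_pow h6) 2
    have h8' : p ^ 2 ∣ p := (Nat.dvd_add_right h7).1 h5
    have h9 := Nat.le_of_dvd hp.pos h8'
    have h10 := hp.two_le
    nlinarith

end Pool.Agent.H90.LCL
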