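import Pool.Agent.H90.LC.Targets

/-!
# PR: the primes `3 mod 4` in an interval
-/

set_option autoImplicit false

namespace Pool.Agent.H90.LCL

open Finset Pool.Agent.H90.LC Pool.Agent.H44.MS

theorem chi_le (p : ℕ) : chi p ≤ 1 := by
  unfold chi
  rw [ZMod.χ₄_nat_eq_if_mod_four]
  split_ifs <;> norm_num

theorem chi_three {p : ℕ} (h : p % 4 = 3) : chi p = -1 := by
  unfold chi
  rw [ZMod.χ₄_nat_three_mod_four h]
  norm_num

theorem neg_one_le_chi (p : ℕ) : -1 ≤ chi p := by
  unfold chi
  rw [ZMod.χ₄_nat_eq_if_mod_four]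
  split_ifs <;> norm_num

theorem chi_eq {p : ℕ} (hp : p.Prime) (h2 : 2 < p) (h : ¬ p % 4 = 3) : chi p = 1 := by
  unfold chi
  have h1 : p % 2 = 1 := by
    rcases hp.eq_two_or_odd with e | e
    · omega
    · exact e
  rw [ZMod.χ₄_nat_one_mod_four (by omega)]
  norm_num

theorem pf_PR (hMER : T_MER) : T_PR := by
  obtain ⟨C, hC, h1⟩ := hMER
  obtain ⟨A, hA⟩ := exists_nat_ge (Real.exp (8 * C + 1))
  have hA' : Real.exp (8 * C + 1) ≤ (A : ℝ) := hA
  have hexp1 : (2 : ℝ) ≤ Real.exp (8 * C + 1) := by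
    have := Real.add_one_le_exp (8 * C + 1)
    linarith
  have hA2 : 2 ≤ A := by exact_mod_cast hexp1.trans hA'
  have hA0 : (0 : ℝ) < A := by
    have : (2 : ℝ) ≤ A := by exact_mod_cast hA2
    linarith
  have hlogA : 8 * C + 1 ≤ Real.log A := by
    rw [Real.le_log_iff_exp_le hA0]
    exact hA'
  refine ⟨A, hA2, 1 / 4, by norm_num, max A 3, fun y hy => ?_⟩
  have hyA : A ≤ y := (le_max_left _ _).trans hy
  have hy3 : 3 ≤ y := (le_max_right _ _).trans hy
  have hyR : (3 : ℝ) ≤ y := by exact_mod_cast hy3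
  have hy0 : (0 : ℝ) < y := by linarith
  have hlogy : 0 < Real.log y := Real.log_pos (by linarith)
  have hlogAy : Real.log A ≤ Real.log y := Real.log_le_log hA0 (by exact_mod_cast hyA)
  obtain ⟨h2, h3⟩ := h1 y (A * y) (by omega) (Nat.le_mul_of_pos_left y (by omega))
  set S := (Ioc y (A * y)).filter (fun p => p.Prime ∧ p % 4 = 3) with hS
  -- the sum over the primes three modulo four
  have e1 : ∑ p ∈ Ioc y (A * y), ic p.Prime / p - ∑ p ∈ Ioc y (A * y), ic p.Prime * chi p / p =
      2 * ∑ p ∈ S, 1 / (p : ℝ) := by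
    rw [← sum_sub_distrib, hS, sum_filter, mul_sum]
    refine sum_congr rfl fun p hp => ?_
    have hp2 : 2 < p := by
      have := (mem_Ioc.1 hp).1
      omega
    unfold ic
    by_cases hpp : p.Prime
    · by_cases h4 : p % 4 = 3
      · rw [if_pos hpp, if_pos ⟨hpp, h4⟩, chi_three h4]
        ring
      · rw [if_pos hpp, if_neg (fun h => h4 h.2), chi_eq hpp hp2 h4]
        ring
    · rw [if_neg hpp, if_neg (fun h => hpp h.1)]
      ring
  have h4 : Real.log (Real.log ((A * y : ℕ) : ℝ)) - Real.log (Real.log y) - C / Real.log y ≤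
      ∑ p ∈ Ioc y (A * y), ic p.Prime / p := by
    have := (abs_le.1 h2).1
    linarith
  have h5 : ∑ p ∈ Ioc y (A * y), ic p.Prime * chi p / p ≤ C / Real.log y := (abs_le.1 h3).2
  have e2 : Real.log ((A * y : ℕ) : ℝ) = Real.log A + Real.log y := by
    push_cast
    rw [Real.log_mul hA0.ne' hy0.ne']
  -- the lower bound for the difference of the logarithms
  have h6 : Real.log A / (2 * Real.log y) ≤
      Real.log (Real.log ((A * y : ℕ) : ℝ)) - Real.log (Real.log y) := by
    rw [e2]
    have hlA : 0 < Real.log A := by linarith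
    rw [← Real.log_div (by linarith) hlogy.ne']
    set t := (Real.log A + Real.log y) / Real.log y with ht
    have ht0 : 0 < t := by positivity
    have h7 : 1 - t⁻¹ ≤ Real.log t := by
      have := Real.add_one_le_exp (-Real.log t)
      rw [Real.exp_neg, Real.exp_log ht0] at this
      linarith
    refine le_trans ?_ h7
    have e3 : 1 - t⁻¹ = Real.log A / (Real.log A + Real.log y) := by
      rw [ht, inv_div]
      have : Real.log A + Real.log y ≠ 0 := by positivity
      field_simp
      ring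
    rw [e3]
    apply div_le_div_of_nonneg_left hlA.le (by positivity)
    linarith
  have h7 : (1 / 4 : ℝ) / Real.log y ≤ ∑ p ∈ S, 1 / (p : ℝ) := by
    have h8 : 2 * ∑ p ∈ S, 1 / (p : ℝ) ≥ Real.log A / (2 * Real.log y) - 2 * (C / Real.log y) := by
      rw [← e1]
      linarith
    have h9 : Real.log A / (2 * Real.log y) - 2 * (C / Real.log y) =
        (Real.log A / 2 - 2 * C) / Real.log y := by
      field_simp
    rw [h9] at h8
    have h10 : (2 * (1 / 4) : ℝ) / Real.log y ≤ (Real.log A / 2 - 2 * C) / Real.log y := by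
      apply div_le_div_of_nonneg_right _ hlogy.le
      linarith
    have h11 : (2 * (1 / 4) : ℝ) / Real.log y = 2 * ((1 / 4 : ℝ) / Real.log y) := by ring
    linarith
  have h8 : ∑ p ∈ S, 1 / (p : ℝ) ≤ S.card * (1 / (y : ℝ)) := by
    rw [← nsmul_eq_mul]
    refine sum_le_card_nsmul _ _ _ fun p hp => ?_
    rw [hS, mem_filter, mem_Ioc] at hp
    have : (y : ℝ) ≤ p := by exact_mod_cast hp.1.1.le
    exact one_div_le_one_div_of_le hy0 this
  have h9 : (1 / 4 : ℝ) / Real.log y ≤ S.card / y := by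
    have := h7.trans h8
    rwa [mul_one_div] at this
  rw [le_div_iff₀ hy0] at h9
  calc (1 / 4 : ℝ) * y / Real.log y = (1 / 4 : ℝ) / Real.log y * y := by ring
    _ ≤ S.card := h9

end Pool.Agent.H90.LCL
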