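import Pool.Agent.H90.LCL.HP

/-!
# SM: the sum over `m`
-/

set_option autoImplicit false

namespace Pool.Agent.H90.LCL

open Finset Pool.Agent.H90.LC Pool.Agent.H44.MS

/-- The square root of the part of `m` composed of the primes `3 mod 4`. -/
def m2 (m : ℕ) : ℕ := ∏ p ∈ F3 m, p ^ (m.factorization p / 2)

/-- The part of `m` composed of the other primes. -/
def m1 (m : ℕ) : ℕ := ∏ p ∈ m.primeFactors.filter (fun p => ¬ p % 4 = 3), p ^ m.factorization p

theorem m_eq {m : ℕ} (hm : m ≠ 0) (hS : SS m) : m1 m * m2 m ^ 2 = m := by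
  unfold m1 m2
  rw [← prod_pow]
  have e : ∏ p ∈ F3 m, (p ^ (m.factorization p / 2)) ^ 2 = ∏ p ∈ F3 m, p ^ m.factorization p := by
    refine prod_congr rfl fun p hp => ?_
    rw [← pow_mul]
    congr 1
    have h := hS p (mem_F3.1 hp).1.1 (mem_F3.1 hp).2
    exact Nat.div_mul_cancel (even_iff_two_dvd.1 h)
  rw [e]
  unfold F3
  rw [mul_comm, prod_filter_mul_prod_filter_not]
  exact Nat.prod_factorization_pow_eq_self hm

theorem m1_prime {m p : ℕ} (hp : p.Prime) (h : p ∣ m1 m) : p % 4 ≠ 3 := by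
  unfold m1 at h
  obtain ⟨q, hq, hpq⟩ := (Prime.dvd_finsetProd_iff hp.prime _).1 h
  rw [mem_filter] at hq
  have e : p = q := (Nat.prime_dvd_prime_iff_eq hp (Nat.prime_of_mem_primeFactors hq.1)).1
    (hp.dvd_of_dvd_pow hpq)
  rw [e]
  exact hq.2

theorem m1_pos (m : ℕ) : 0 < m1 m := by
  unfold m1
  exact prod_pos fun p hp => pow_pos (Nat.prime_of_mem_primeFactors (mem_filter.1 hp).1).pos _

theorem m2_pos (m : ℕ) : 0 < m2 m := by
  unfold m2
  exact prod_pos fun p hp => pow_pos (mem_F3.1 hp).1.1.pos _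

theorem pf_SM (hHP : T_HP) (hSG : T_SG) : T_SM := by
  classical
  obtain ⟨-, -, hsq, C₁, hC₁, h1⟩ := hHP
  obtain ⟨C₂, hC₂, h2⟩ := hSG
  refine ⟨C₂ * C₁, by positivity, fun X hX => ?_⟩
  have hlog : 0 ≤ √(Real.log X) := Real.sqrt_nonneg _
  have e1 : ∑ m ∈ Icc 1 X, ic (SS m) * hp m / m = ∑ m ∈ (Icc 1 X).filter (fun m => SS m),
      (1 / (m1 m : ℝ)) * (hp (m2 m) / (m2 m : ℝ) ^ 2) := by
    rw [sum_filter]
    refine sum_congr rfl fun m hm => ?_
    have hm0 : m ≠ 0 := by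
      have := (mem_Icc.1 hm).1
      omega
    unfold ic
    split_ifs with h
    · rw [one_mul]
      have h3 := m_eq hm0 h
      have h4 : hp m = hp (m2 m) := by
        have := hsq (m1 m) (m2 m) (m1_pos m) (m2_pos m) (fun p hp hd => m1_prime hp hd)
        rw [h3] at this
        exact this
      rw [h4]
      have h5 : (m : ℝ) = (m1 m : ℝ) * (m2 m : ℝ) ^ 2 := by
        have : ((m1 m * m2 m ^ 2 : ℕ) : ℝ) = (m : ℝ) := by rw [h3]
        rw [← this]
        push_cast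
        ring
      rw [h5, one_div_mul_eq_div, div_div, mul_comm ((m2 m : ℝ) ^ 2)]
    · rw [zero_mul, zero_div]
  rw [e1]
  set S := (Icc 1 X).filter (fun m => SS m) with hS
  set F : ℕ × ℕ → ℝ := fun z => (1 / (z.1 : ℝ)) * (hp z.2 / (z.2 : ℝ) ^ 2) with hF
  have hFnn : ∀ z, 0 ≤ F z := by
    intro z
    rw [hF]
    have := zero_le_one.trans (one_le_hp z.2)
    positivity
  have hinj : Set.InjOn (fun m => (m1 m, m2 m)) (S : Set ℕ) := by
    intro m hm m' hm' he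
    have hm1 : m ∈ S := hm
    have hm1' : m' ∈ S := hm'
    rw [hS, mem_filter, mem_Icc] at hm1 hm1'
    have h3 := m_eq (by omega) hm1.2
    have h4 := m_eq (by omega) hm1'.2
    have e2 : m1 m = m1 m' := (Prod.mk.inj he).1
    have e3 : m2 m = m2 m' := (Prod.mk.inj he).2
    rw [← h3, ← h4, e2, e3]
  have e2 : ∑ m ∈ S, (1 / (m1 m : ℝ)) * (hp (m2 m) / (m2 m : ℝ) ^ 2) =
      ∑ z ∈ S.image (fun m => (m1 m, m2 m)), F z := by
    rw [sum_image hinj]
  rw [e2]
  set T := ((Icc 1 X).filter (fun a => Smooth X a ∧ Good 0 X a)) ×ˢ Icc 1 X with hT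
  have hsub : S.image (fun m => (m1 m, m2 m)) ⊆ T := by
    intro z hz
    rw [mem_image] at hz
    obtain ⟨m, hm, rfl⟩ := hz
    rw [hS, mem_filter, mem_Icc] at hm
    have h3 := m_eq (by omega) hm.2
    have hp1 := m1_pos m
    have hp2 := m2_pos m
    have hle1 : m1 m ≤ m := Nat.le_of_dvd (by omega) (Dvd.intro _ h3)
    have hle2 : m2 m ≤ m := Nat.le_of_dvd (by omega)
      (dvd_trans (dvd_pow_self (m2 m) (by norm_num)) (Dvd.intro_left _ h3))
    rw [hT, mem_product, mem_filter, mem_Icc, mem_Icc]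
    refine ⟨⟨⟨hp1, hle1.trans hm.1.2⟩, ?_, ?_⟩, hp2, hle2.trans hm.1.2⟩
    · intro p hp hd
      exact (Nat.le_of_dvd hp1 hd).trans (hle1.trans hm.1.2)
    · intro p hp hp3 _ _ hd
      exact m1_prime hp hd hp3
  refine (sum_le_sum_of_subset_of_nonneg hsub fun z _ _ => hFnn z).trans ?_
  rw [hT, sum_product]
  have e3 : ∀ a ∈ (Icc 1 X).filter (fun a => Smooth X a ∧ Good 0 X a),
      ∑ b ∈ Icc 1 X, F (a, b) = (1 / (a : ℝ)) * ∑ b ∈ Icc 1 X, hp b / (b : ℝ) ^ 2 := by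
    intro a _
    rw [mul_sum]
  rw [sum_congr rfl e3, ← sum_mul]
  have h3 : ∑ a ∈ (Icc 1 X).filter (fun a => Smooth X a ∧ Good 0 X a), 1 / (a : ℝ) ≤
      C₂ * √(Real.log X) := by
    refine le_trans (le_of_eq ?_) (h2 X X hX)
    rw [sum_filter]
    refine sum_congr rfl fun a _ => ?_
    unfold ic
    split_ifs
    · rfl
    · rw [zero_div]
  have h4 : 0 ≤ ∑ b ∈ Icc 1 X, hp b / (b : ℝ) ^ 2 := by
    refine sum_nonneg fun b _ => ?_
    have := zero_le_one.trans (one_le_hp b)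
    positivity
  calc _ ≤ (C₂ * √(Real.log X)) * ∑ b ∈ Icc 1 X, hp b / (b : ℝ) ^ 2 :=
        mul_le_mul_of_nonneg_right h3 h4
    _ ≤ (C₂ * √(Real.log X)) * C₁ := mul_le_mul_of_nonneg_left (h1 X) (by positivity)
    _ = C₂ * C₁ * √(Real.log X) := by ring

end Pool.Agent.H90.LCL
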