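import Pool.Agent.H90.LC.Targets

/-!
# INJ: the factorisation of `2 x + 1`
-/

set_option autoImplicit false

namespace Pool.Agent.H90.LCL

open Finset Pool.Agent.H90.LC Pool.Agent.H44.MS

/-- The set counted by `TM`. -/
noncomputable def TF (y X m : ℕ) : Finset ℕ := by
  classical exact (Icc 1 X).filter (fun t => t.Prime ∧ y < t ∧ Ev y (t * m - 2))

theorem TM_eq (y X m : ℕ) : TM y X m = (TF y X m).card := rfl

theorem fac_mul_left {a b p : ℕ} (ha : a ≠ 0) (hb : b ≠ 0) (h : ¬ p ∣ a) :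
    (a * b).factorization p = b.factorization p := by
  rw [Nat.factorization_mul ha hb, Finsupp.add_apply, Nat.factorization_eq_zero_of_not_dvd h,
    zero_add]

theorem exists_fac {y K x : ℕ} (hy : 2 * K + 1 < y) (hx : x ∈ Sur y (K * y)) :
    ∃ q m : ℕ, q * m = 2 * x + 1 ∧ m ∈ Icc 1 (2 * K + 1) ∧ SS m ∧
      q ∈ TF y ((2 * (K * y) + 1) / m) m := by
  classical
  unfold Sur at hx
  rw [mem_filter, mem_Icc] at hx
  obtain ⟨⟨hx1, hxB⟩, hx2, hev⟩ := hx
  have hnot : ¬ ∃ a b : ℕ, 2 * x + 1 = a ^ 2 + b ^ 2 := by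
    rintro ⟨a, b, hab⟩
    have ha : a ^ 2 % 4 = 0 ∨ a ^ 2 % 4 = 1 := by
      rw [Nat.pow_mod]
      have : a % 4 = 0 ∨ a % 4 = 1 ∨ a % 4 = 2 ∨ a % 4 = 3 := by omega
      rcases this with e | e | e | e <;> rw [e] <;> norm_num
    have hb : b ^ 2 % 4 = 0 ∨ b ^ 2 % 4 = 1 := by
      rw [Nat.pow_mod]
      have : b % 4 = 0 ∨ b % 4 = 1 ∨ b % 4 = 2 ∨ b % 4 = 3 := by omega
      rcases this with e | e | e | e <;> rw [e] <;> norm_num
    omega
  rw [Nat.eq_sq_add_sq_iff] at hnot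
  push Not at hnot
  obtain ⟨q, hq, hq3, hodd⟩ := hnot
  have hqp := Nat.prime_of_mem_primeFactors hq
  have hqd := Nat.dvd_of_mem_primeFactors hq
  rw [← Nat.factorization_def _ hqp] at hodd
  have h1 : 2 * x + 1 ≠ 0 := by omega
  have h2 : 2 * x - 1 ≠ 0 := by omega
  -- no common primes
  have hcop : ∀ p : ℕ, p.Prime → p % 4 = 3 → p ∣ 2 * x + 1 → ¬ p ∣ 2 * x - 1 := by
    intro p hp hp3 hd1 hd2
    have h3 : p ∣ (2 * x + 1) - (2 * x - 1) := Nat.dvd_sub hd1 hd2
    have h4 : (2 * x + 1) - (2 * x - 1) = 2 := by omega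
    rw [h4] at h3
    have := Nat.le_of_dvd (by norm_num) h3
    omega
  have hyq : y < q := by
    by_contra hcon
    push Not at hcon
    have h3 := hev q hqp hq3 hcon
    rw [fac_mul_left h2 h1 (hcop q hqp hq3 hqd)] at h3
    exact hodd h3
  obtain ⟨m, hm⟩ := hqd
  have hm0 : 0 < m := Nat.pos_of_ne_zero fun h => by
    rw [h] at hm
    omega
  have hmK : m ≤ 2 * K + 1 := by
    by_contra hcon
    push Not at hcon
    have h3 : (y + 1) * (2 * K + 2) ≤ q * m := Nat.mul_le_mul hyq (by omega)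
    have h4 : (y + 1) * (2 * K + 2) = 2 * (K * y) + 2 * y + 2 * K + 2 := by ring
    omega
  refine ⟨q, m, hm.symm, mem_Icc.2 ⟨hm0, hmK⟩, ?_, ?_⟩
  · intro p hp hp3
    by_cases hpm : p ∣ m
    · have h3 : p ≤ m := Nat.le_of_dvd hm0 hpm
      have h4 : ¬ p ∣ q := by
        intro h
        have := (Nat.prime_dvd_prime_iff_eq hp hqp).1 h
        omega
      have h5 : p ∣ 2 * x + 1 := by
        rw [hm]
        exact Dvd.dvd.mul_left hpm q
      have h6 := hev p hp hp3 (by omega)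
      rw [fac_mul_left h2 h1 (hcop p hp hp3 h5), hm, fac_mul_left hqp.ne_zero hm0.ne' h4] at h6
      exact h6
    · rw [Nat.factorization_eq_zero_of_not_dvd hpm]
      exact Even.zero
  · unfold TF
    rw [mem_filter, mem_Icc]
    refine ⟨⟨hqp.one_lt.le, ?_⟩, hqp, hyq, ?_⟩
    · rw [Nat.le_div_iff_mul_le hm0, ← hm]
      omega
    · have e : q * m - 2 = 2 * x - 1 := by
        rw [← hm]
        omega
      rw [e]
      intro p hp hp3 hpy
      by_cases hpd : p ∣ 2 * x - 1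
      · have h3 : ¬ p ∣ 2 * x + 1 := fun h => hcop p hp hp3 h hpd
        have h4 := hev p hp hp3 hpy
        rw [mul_comm, fac_mul_left h1 h2 h3] at h4
        exact h4
      · rw [Nat.factorization_eq_zero_of_not_dvd hpd]
        exact Even.zero

theorem pf_INJ : T_INJ := by
  classical
  intro y K _ hy
  have hex : ∀ x ∈ Sur y (K * y), ∃ q m : ℕ, q * m = 2 * x + 1 ∧ m ∈ Icc 1 (2 * K + 1) ∧ SS m ∧
      q ∈ TF y ((2 * (K * y) + 1) / m) m := fun x hx => exists_fac hy hx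
  choose! q m h1 h2 h3 h4 using hex
  have hcard : (Sur y (K * y)).card ≤
      (((Icc 1 (2 * K + 1)).filter (fun m => SS m)).sigma
        (fun m => TF y ((2 * (K * y) + 1) / m) m)).card := by
    refine card_le_card_of_injOn (fun x => ⟨m x, q x⟩) ?_ ?_
    · intro x hx
      have hx' : x ∈ Sur y (K * y) := hx
      have : (⟨m x, q x⟩ : Σ _ : ℕ, ℕ) ∈ (((Icc 1 (2 * K + 1)).filter (fun m => SS m)).sigma
        (fun m => TF y ((2 * (K * y) + 1) / m) m)) :=
        mem_sigma.2 ⟨mem_filter.2 ⟨h2 x hx', h3 x hx'⟩, h4 x hx'⟩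
      exact this
    · intro x hx x' hx' he
      have hx1 : x ∈ Sur y (K * y) := hx
      have hx2 : x' ∈ Sur y (K * y) := hx'
      have e1 : m x = m x' := congrArg Sigma.fst he
      have e2 : q x = q x' := by
        have := congrArg (fun s : Σ _ : ℕ, ℕ => s.2) he
        exact this
      have e3 := h1 x hx1
      have e4 := h1 x' hx2
      rw [e1, e2, e4] at e3
      omega
  rw [card_sigma] at hcard
  have h5 : ((Sur y (K * y)).card : ℝ) ≤
      ((∑ m ∈ (Icc 1 (2 * K + 1)).filter (fun m => SS m),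
        (TF y ((2 * (K * y) + 1) / m) m).card : ℕ) : ℝ) := by exact_mod_cast hcard
  refine h5.trans (le_of_eq ?_)
  push_cast
  rw [sum_filter]
  refine sum_congr rfl fun m _ => ?_
  rw [TM_eq]
  unfold ic
  split_ifs
  · rw [one_mul]
  · rw [zero_mul]

end Pool.Agent.H90.LCL
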