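import Pool.Agent.H90.LCL.HP
import Pool.Agent.H90.LCL.INJ

/-!
# SUR: the number of the survivors
-/

set_option autoImplicit false

namespace Pool.Agent.H90.LCL

open Finset Pool.Agent.H90.LC Pool.Agent.H44.MS

theorem TM_zero {y X m : ℕ} (h : X < y) : TM y X m = 0 := by
  rw [TM_eq, card_eq_zero]
  unfold TF
  classical
  rw [filter_eq_empty_iff]
  rintro t ht ⟨_, h2, _⟩
  have := (mem_Icc.1 ht).2
  omega

theorem log_sq_le : ∃ Y : ℕ, ∀ y : ℕ, Y ≤ y → 9 * (Real.log y) ^ 2 ≤ y := by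
  have h1 := (Real.isLittleO_pow_log_id_atTop (n := 2)).def (show (0 : ℝ) < 1 / 9 by norm_num)
  have h2 := (tendsto_natCast_atTop_atTop (R := ℝ)).eventually h1
  obtain ⟨Y, hY⟩ := Filter.eventually_atTop.1 h2
  refine ⟨Y, fun y hy => ?_⟩
  have h3 := hY y hy
  rw [Real.norm_of_nonneg (sq_nonneg _), id, Real.norm_of_nonneg (Nat.cast_nonneg y)] at h3
  linarith

theorem pf_SUR (hINJ : T_INJ) (hTM : T_TM) (hSM : T_SM) : T_SUR := by
  obtain ⟨C₁, hC₁, y₁, h1⟩ := hTM
  obtain ⟨C₂, hC₂, h2⟩ := hSM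
  obtain ⟨Y, hY⟩ := log_sq_le
  refine ⟨6 * C₁ * C₂, by positivity, max y₁ (max Y 2), fun y K hy hK hKy => ?_⟩
  have hy1 : y₁ ≤ y := (le_max_left _ _).trans hy
  have hy2 : Y ≤ y := ((le_max_left _ _).trans (le_max_right _ _)).trans hy
  have hy3 : 2 ≤ y := ((le_max_right _ _).trans (le_max_right _ _)).trans hy
  have hlog := hY y hy2
  have hK2 : (2 : ℝ) ≤ K := by exact_mod_cast hK
  have hyR : (2 : ℝ) ≤ y := by exact_mod_cast hy3
  have hlogpos : 0 < Real.log y := Real.log_pos (by linarith)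
  have h9 : 9 * (K : ℝ) ^ 2 ≤ y := by
    have : (K : ℝ) ^ 2 ≤ (Real.log y) ^ 2 := pow_le_pow_left₀ (by linarith) hKy 2
    linarith
  have h9' : 9 * K ^ 2 ≤ y := by exact_mod_cast h9
  have hKlt : 2 * K + 1 < y := by nlinarith
  have hsq : (2 * (K * y) + 1) ^ 2 ≤ y ^ 3 := by
    have h3 : 2 * (K * y) + 1 ≤ 3 * (K * y) := by
      have : 1 ≤ K * y := Nat.mul_pos (by omega) (by omega)
      omega
    calc (2 * (K * y) + 1) ^ 2 ≤ (3 * (K * y)) ^ 2 := Nat.pow_le_pow_left h3 2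
      _ = 9 * K ^ 2 * y ^ 2 := by ring
      _ ≤ y * y ^ 2 := Nat.mul_le_mul_right _ h9'
      _ = y ^ 3 := by ring
  set L := Real.log y * √(Real.log y) with hL
  have hLpos : 0 < L := mul_pos hlogpos (Real.sqrt_pos.2 hlogpos)
  refine (hINJ y K hK hKlt).trans ?_
  have h4 : ∀ m ∈ Icc 1 (2 * K + 1), ic (SS m) * (TM y ((2 * (K * y) + 1) / m) m : ℝ) ≤
      (C₁ * (2 * (K * y) + 1) / L) * (ic (SS m) * hp m / m) := by
    intro m hm
    have hm1 := (mem_Icc.1 hm).1
    have hm0 : (0 : ℝ) < m := by exact_mod_cast hm1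
    have hic : 0 ≤ ic (SS m) := by
      unfold ic
      split_ifs <;> norm_num
    have hhp0 : 0 ≤ hp m := zero_le_one.trans (one_le_hp m)
    have h5 : (TM y ((2 * (K * y) + 1) / m) m : ℝ) ≤ C₁ * ((2 * (K * y) + 1) / m) * hp m / L := by
      by_cases hX : (2 * (K * y) + 1) / m < y
      · rw [TM_zero hX]
        push_cast
        positivity
      · push Not at hX
        have h6 : ((2 * (K * y) + 1) / m * m) ^ 2 ≤ y ^ 3 :=
          (Nat.pow_le_pow_left (Nat.div_mul_le_self _ _) 2).trans hsq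
        refine (h1 y _ m hy1 hm1 hX h6).trans ?_
        apply div_le_div_of_nonneg_right _ hLpos.le
        apply mul_le_mul_of_nonneg_right _ hhp0
        apply mul_le_mul_of_nonneg_left _ hC₁.le
        refine Nat.cast_div_le.trans (le_of_eq ?_)
        push_cast
        ring
    calc ic (SS m) * (TM y ((2 * (K * y) + 1) / m) m : ℝ)
        ≤ ic (SS m) * (C₁ * ((2 * (K * y) + 1) / m) * hp m / L) :=
          mul_le_mul_of_nonneg_left h5 hic
      _ = (C₁ * (2 * (K * y) + 1) / L) * (ic (SS m) * hp m / m) := by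
          field_simp
  refine (sum_le_sum h4).trans ?_
  rw [← mul_sum]
  have h5 := h2 (2 * K + 1) (by omega)
  have hlogK : 0 ≤ Real.log K := Real.log_nonneg (by linarith)
  have h6 : √(Real.log ((2 * K + 1 : ℕ) : ℝ)) ≤ 2 * √(Real.log K) := by
    have h7 : Real.log ((2 * K + 1 : ℕ) : ℝ) ≤ 4 * Real.log K := by
      have h8 : ((2 * K + 1 : ℕ) : ℝ) ≤ (K : ℝ) ^ 4 := by
        push_cast
        have : (4 : ℝ) ≤ (K : ℝ) ^ 2 := by nlinarith
        nlinarith
      have h9 : (0 : ℝ) < ((2 * K + 1 : ℕ) : ℝ) := by positivity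
      calc Real.log ((2 * K + 1 : ℕ) : ℝ) ≤ Real.log ((K : ℝ) ^ 4) := Real.log_le_log h9 h8
        _ = 4 * Real.log K := by
          rw [Real.log_pow]
          norm_num
    calc √(Real.log ((2 * K + 1 : ℕ) : ℝ)) ≤ √(4 * Real.log K) := Real.sqrt_le_sqrt h7
      _ = 2 * √(Real.log K) := by
          rw [Real.sqrt_mul (by norm_num)]
          congr 1
          rw [show (4 : ℝ) = 2 ^ 2 by norm_num, Real.sqrt_sq (by norm_num)]
  have h7 : (C₁ * (2 * ((K : ℝ) * y) + 1) / L) ≤ C₁ * (3 * (K * y)) / L := by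
    apply div_le_div_of_nonneg_right _ hLpos.le
    apply mul_le_mul_of_nonneg_left _ hC₁.le
    have : (1 : ℝ) ≤ K * y := by nlinarith
    linarith
  have hnn : 0 ≤ ∑ m ∈ Icc 1 (2 * K + 1), ic (SS m) * hp m / m := by
    refine sum_nonneg fun m _ => ?_
    have hic : 0 ≤ ic (SS m) := by
      unfold ic
      split_ifs <;> norm_num
    have hhp0 : 0 ≤ hp m := zero_le_one.trans (one_le_hp m)
    positivity
  calc _ ≤ C₁ * (3 * (K * y)) / L * (C₂ * (2 * √(Real.log K))) := by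
        refine mul_le_mul h7 (h5.trans ?_) hnn (by positivity)
        exact mul_le_mul_of_nonneg_left h6 hC₂.le
    _ = 6 * C₁ * C₂ * (K * y) * √(Real.log K) / L := by ring

end Pool.Agent.H90.LCL
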