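import Pool.Agent.H90.LCL.CLS
import Pool.Agent.H90.LCL.CTH
import Pool.Agent.H90.LCL.DEL
import Pool.Agent.H90.LCL.SUR
import Pool.Agent.H90.LCL.PR
import Pool.Agent.H90.LCL.SM
import Pool.Agent.H90.LCL.WZ
import Pool.Agent.H90.LCL.LOW
import Pool.Agent.H90.LCL.KIL
import Pool.Agent.H30.LCL.RAN
import Pool.Agent.H57.LCL.SIV
import Pool.Agent.H37.LCL.TM
import Pool.Agent.H37.LCL.TMB
import Pool.Agent.H6.LCL.CRT
import Pool.Agent.H6.LCL.SIZ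
import Pool.Agent.H79.LCL.COR
import Pool.Agent.H19.MS.L1
import Pool.Agent.H19.MS.MC
import Pool.Agent.H19.MS.MER
import Pool.Agent.H19.MS.VT
import Pool.Agent.H66.MS.VV
import Pool.Agent.H65.MS.SG

/-!
# Large least coordinates: assembly
-/

set_option autoImplicit false

namespace Pool.Agent.H90.LCL

open Finset Pool.Agent.H90.LC Pool.Agent.H44.MS

theorem all_MER : T_MER := Pool.Agent.H19.MS.pf_MER (Pool.Agent.H19.MS.pf_MC Pool.Agent.H19.MS.pf_L1)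

theorem all_SUR : T_SUR := by
  have MER := all_MER
  have VT : T_VT := Pool.Agent.H19.MS.pf_VT MER
  have VV : T_VV := Pool.Agent.H66.MS.pf_VV MER
  have SG : T_SG := Pool.Agent.H65.MS.pf_SG MER
  have RAN : T_RAN := Pool.Agent.H30.LCL.pf_RAN
  have SIV : T_SIV := Pool.Agent.H57.LCL.pf_SIV RAN
  have WZ : T_WZ := pf_WZ VT VV
  have HP : T_HP := pf_HP
  have TMB : T_TMB := Pool.Agent.H37.LCL.pf_TMB SIV WZ HP
  have TM : T_TM := Pool.Agent.H37.LCL.pf_TM TMB HP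
  exact pf_SUR pf_INJ TM (pf_SM HP SG)

theorem all_FIN : T_FIN :=
  pf_FIN all_SUR (pf_PR all_MER) pf_SQF Pool.Agent.H6.LCL.pf_CRT Pool.Agent.H6.LCL.pf_SIZ
    pf_LOW pf_NSQ pf_KIL

theorem all_COR : T_COR := Pool.Agent.H79.LCL.pf_COR all_FIN

theorem all_count : ∃ C : ℝ, 0 < C ∧ ∀ (X : ℝ) (N : ℕ), C ≤ X →
    Real.exp (C * (X * √(Real.log (Real.log X) / Real.log X))) ≤ N →
    ∃ S : Finset ℕ, (∀ n ∈ S, n ≤ N ∧ n % 8 = 3 ∧ Squarefree n ∧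
        ∀ x₁ x₂ x₃ : ℤ, x₁ ^ 2 + x₂ ^ 2 + x₃ ^ 2 = n → X < |(x₃ : ℝ)|) ∧
      N * Real.exp (-(C * (X * √(Real.log (Real.log X) / Real.log X)))) ≤ S.card := by
  obtain ⟨c₂, C₃, h1, h2, h3, Y, h4⟩ := exists_class all_SUR (pf_PR all_MER)
    Pool.Agent.H6.LCL.pf_CRT Pool.Agent.H6.LCL.pf_SIZ pf_LOW pf_NSQ pf_KIL
  exact count_exc h1 h2 h3 h4

end Pool.Agent.H90.LCL
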