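import Pool.Agent.H90.LCL.FIN

/-!
# CLS: the class without small coordinates
-/

set_option autoImplicit false

namespace Pool.Agent.H90.LCL

open Finset Filter Pool.Agent.H90.LC

theorem exists_class (hSUR : T_SUR) (hPR : T_PR) (hCRT : T_CRT) (hSIZ : T_SIZ)
    (hLOW : T_LOW) (hNSQ : T_NSQ) (hKIL : T_KIL) :
    ∃ c₂ C₃ : ℝ, 0 < c₂ ∧ c₂ ≤ 1 ∧ 0 < C₃ ∧ ∃ Y : ℕ, ∀ y : ℕ, Y ≤ y →
      ∃ K M a : ℕ, c₂ * √(Real.log y / Real.log (Real.log y)) / 2 ≤ K ∧ 6 ∣ M ∧ 0 < M ∧
        Real.log M ≤ C₃ * y ∧ ∀ n : ℕ, n ≡ a [MOD M] → n % 8 = 3 ∧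
          (∀ p : ℕ, p.Prime → p ∣ M → ¬ p ^ 2 ∣ n) ∧
          ∀ x₁ x₂ x₃ : ℤ, x₁ ^ 2 + x₂ ^ 2 + x₃ ^ 2 = n → ((K * y : ℕ) : ℝ) < |(x₃ : ℝ)| := by
  obtain ⟨CS, hCS, yS, h1⟩ := hSUR
  obtain ⟨A, hA, cP, hcP, yP, h2⟩ := hPR
  obtain ⟨CZ, hCZ, h4⟩ := hSIZ
  have hA0 : (0 : ℝ) < A := by
    have : 0 < A := by omega
    exact_mod_cast this
  set c2 : ℝ := min 1 (cP / CS) with hc2
  have hc2pos : 0 < c2 := lt_min one_pos (by positivity)
  have hc2one : c2 ≤ 1 := min_le_left _ _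
  have hc2P : CS * c2 ≤ cP := by
    have : c2 ≤ cP / CS := min_le_right _ _
    calc CS * c2 ≤ CS * (cP / CS) := mul_le_mul_of_nonneg_left this hCS.le
      _ = cP := by field_simp
  clear_value c2
  obtain ⟨Y, hY⟩ := large_ratio ((4 / c2) ^ 2) (by positivity)
  refine ⟨c2, CZ * A, hc2pos, hc2one, by positivity, max (max yS yP) (max Y 3), fun y hyY' => ?_⟩
  have hyS : yS ≤ y := ((le_max_left _ _).trans (le_max_left _ _)).trans hyY'
  have hyP : yP ≤ y := ((le_max_right _ _).trans (le_max_left _ _)).trans hyY'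
  have hyY : Y ≤ y := ((le_max_left _ _).trans (le_max_right _ _)).trans hyY'
  have hy3 : 3 ≤ y := ((le_max_right _ _).trans (le_max_right _ _)).trans hyY'
  obtain ⟨hly1, hlly1, hratio⟩ := hY y hyY
  set ly := Real.log (y : ℝ) with hly
  set lly := Real.log ly with hlly
  have hlypos : 0 < ly := by linarith
  have hllypos : 0 < lly := by linarith
  have hy0 : (0 : ℝ) < y := by
    have : 0 < y := by omega
    exact_mod_cast this
  clear hY
  set r := √(ly / lly) with hr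
  have hr4 : 4 / c2 ≤ r := by
    rw [hr]
    apply Real.le_sqrt_of_sq_le
    exact hratio
  set K : ℕ := ⌊c2 * r⌋₊ with hK
  have hr0 : 0 ≤ r := Real.sqrt_nonneg _
  have hc2r : 4 ≤ c2 * r := by
    have := mul_le_mul_of_nonneg_left hr4 hc2pos.le
    calc (4 : ℝ) = c2 * (4 / c2) := by field_simp
      _ ≤ c2 * r := this
  have hKle : (K : ℝ) ≤ c2 * r := Nat.floor_le (by positivity)
  have hKlt : c2 * r < K + 1 := Nat.lt_floor_add_one _
  clear_value K
  have hKge : c2 * r / 2 ≤ K := by linarith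
  have hK2 : 2 ≤ K := by
    have : (2 : ℝ) ≤ K := by linarith
    exact_mod_cast this
  have hrly : r ≤ √ly := by
    rw [hr]
    apply Real.sqrt_le_sqrt
    exact div_le_self hlypos.le hlly1
  have hsqly : √ly ≤ ly := by
    rw [Real.sqrt_le_left hlypos.le]
    nlinarith
  have hKly : (K : ℝ) ≤ ly := by
    calc (K : ℝ) ≤ c2 * r := hKle
      _ ≤ 1 * r := mul_le_mul_of_nonneg_right hc2one hr0
      _ ≤ ly := by
        rw [one_mul]
        exact hrly.trans hsqly
  have hKpos : (0 : ℝ) < K := by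
    have : 0 < K := by omega
    exact_mod_cast this
  have hlogK : Real.log K ≤ lly := Real.log_le_log hKpos hKly
  have hcard : (Sur y (K * y)).card ≤
      ((Ioc y (A * y)).filter (fun p => p.Prime ∧ p % 4 = 3)).card := by
    have h5 := h1 y K hyS hK2 hKly
    have h6 := h2 y hyP
    have h7 : CS * (K * y) * √(Real.log K) / (ly * √ly) ≤ cP * y / ly := by
      have hsql : 0 < √ly := Real.sqrt_pos.2 hlypos
      rw [div_le_div_iff₀ (by positivity) hlypos]
      have h8 : K * √(Real.log K) ≤ c2 * √ly := by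
        have h9 : √(Real.log K) ≤ √lly := Real.sqrt_le_sqrt hlogK
        calc K * √(Real.log K) ≤ (c2 * r) * √lly :=
              mul_le_mul hKle h9 (Real.sqrt_nonneg _) (by positivity)
          _ = c2 * (r * √lly) := by ring
          _ = c2 * √ly := by
            congr 1
            rw [hr, ← Real.sqrt_mul (by positivity)]
            congr 1
            field_simp
      have h9 : CS * (K * √(Real.log K)) ≤ cP * √ly := by
        calc CS * (K * √(Real.log K)) ≤ CS * (c2 * √ly) := mul_le_mul_of_nonneg_left h8 hCS.le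
          _ = CS * c2 * √ly := by ring
          _ ≤ cP * √ly := mul_le_mul_of_nonneg_right hc2P hsql.le
      calc CS * (K * y) * √(Real.log K) * ly = CS * (K * √(Real.log K)) * (y * ly) := by ring
        _ ≤ cP * √ly * (y * ly) := mul_le_mul_of_nonneg_right h9 (by positivity)
        _ = cP * y * (ly * √ly) := by ring
    have h8 := (h5.trans h7).trans h6
    exact_mod_cast h8
  obtain ⟨f, hf⟩ := exists_att hcard
  obtain ⟨a, ha⟩ := hCRT y (A * y) (K * y) f hf
  obtain ⟨hM6, hMpos, hMlow⟩ := hLOW y (A * y) (K * y) f hy3 hf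
  have hKy : K ≤ y := by
    have h5 : (K : ℝ) ≤ y := hKly.trans ((Real.log_le_sub_one_of_pos hy0).trans (by linarith))
    exact_mod_cast h5
  have hsiz := h4 y A (K * y) f (by omega) (by omega) (Nat.mul_pos (by omega) (by omega))
    (by rw [sq]; exact Nat.mul_le_mul_right y hKy) hf
  refine ⟨K, MM y (K * y) f, a, hKge, hM6, hMpos, hsiz, fun n hn => ⟨(ha n hn).1, ?_, ?_⟩⟩
  · exact fun p hp hpM => hNSQ y (A * y) (K * y) f n hf (ha n hn) p hp hpM
  · intro x₁ x₂ x₃ hx
    have hkil := hKIL y (A * y) (K * y) f n hf (ha n hn) x₁ x₂ x₃ hx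
    have h5 : (((K * y : ℕ) : ℤ) : ℝ) < ((|x₃| : ℤ) : ℝ) := by exact_mod_cast hkil
    rw [Int.cast_abs] at h5
    exact_mod_cast h5

end Pool.Agent.H90.LCL
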