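import Pool.Agent.H90.LC.Targets

/-!
# FIN: the theorem on large least coordinates
-/

set_option autoImplicit false

namespace Pool.Agent.H90.LCL

open Finset Filter Pool.Agent.H90.LC

theorem large_ratio (R : ℝ) (hR : 0 < R) : ∃ Y : ℕ, ∀ y : ℕ, Y ≤ y →
    1 ≤ Real.log y ∧ 1 ≤ Real.log (Real.log y) ∧ R ≤ Real.log y / Real.log (Real.log y) := by
  have h1 : ∀ᶠ u : ℝ in atTop, 1 ≤ u ∧ 1 ≤ Real.log u ∧ R ≤ u / Real.log u := by
    have h2 := Real.isLittleO_log_id_atTop.def (show (0 : ℝ) < 1 / R by positivity)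
    have h3 : ∀ᶠ u : ℝ in atTop, 1 ≤ Real.log u :=
      Real.tendsto_log_atTop.eventually (eventually_ge_atTop 1)
    filter_upwards [h2, h3, eventually_ge_atTop (1 : ℝ)] with u hu1 hu2 hu3
    refine ⟨hu3, hu2, ?_⟩
    rw [Real.norm_of_nonneg (by linarith), id, Real.norm_of_nonneg (by linarith)] at hu1
    rw [le_div_iff₀ (by linarith)]
    calc R * Real.log u ≤ R * (1 / R * u) := mul_le_mul_of_nonneg_left hu1 hR.le
      _ = u := by field_simp
  have h2 : Tendsto (fun y : ℕ => Real.log (y : ℝ)) atTop atTop :=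
    Real.tendsto_log_atTop.comp tendsto_natCast_atTop_atTop
  obtain ⟨Y, hY⟩ := eventually_atTop.1 (h2.eventually h1)
  exact ⟨Y, hY⟩

theorem exists_att {y A K : ℕ} (h : (Sur y (K * y)).card ≤
    ((Ioc y (A * y)).filter (fun p => p.Prime ∧ p % 4 = 3)).card) :
    ∃ f : ℕ → ℕ, Att y (A * y) (K * y) f := by
  classical
  set S := Sur y (K * y) with hS
  set T := (Ioc y (A * y)).filter (fun p => p.Prime ∧ p % 4 = 3) with hT
  have h1 : Fintype.card S ≤ Fintype.card T := by
    rw [Fintype.card_coe, Fintype.card_coe]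
    exact h
  obtain ⟨e⟩ := Function.Embedding.nonempty_of_card_le h1
  refine ⟨fun x => if hx : x ∈ S then (e ⟨x, hx⟩).1 else 0, ?_, ?_⟩
  · intro x hx
    have hx' : x ∈ S := hx
    simp only [hx', dif_pos]
    have h2 := mem_filter.1 (e ⟨x, hx'⟩).2
    have h3 := mem_Ioc.1 h2.1
    exact ⟨h2.2.1, h2.2.2, h3.1, h3.2⟩
  · intro x hx x' hx' he
    have hx1 : x ∈ S := hx
    have hx2 : x' ∈ S := hx'
    simp only [hx1, hx2, dif_pos] at he
    have h3 := e.injective (Subtype.ext he)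
    exact congrArg Subtype.val h3

theorem pf_FIN (hSUR : T_SUR) (hPR : T_PR) (hSQF : T_SQF) (hCRT : T_CRT) (hSIZ : T_SIZ)
    (hLOW : T_LOW) (hNSQ : T_NSQ) (hKIL : T_KIL) : T_FIN := by
  obtain ⟨CS, hCS, yS, h1⟩ := hSUR
  obtain ⟨A, hA, cP, hcP, yP, h2⟩ := hPR
  obtain ⟨CQ, hCQ, h3⟩ := hSQF
  obtain ⟨CZ, hCZ, h4⟩ := hSIZ
  have hA0 : (0 : ℝ) < A := by
    have : 0 < A := by omega
    exact_mod_cast this
  set c1 : ℝ := 1 / (4 * CZ * A + 2) with hc1
  have hc1pos : 0 < c1 := by positivity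
  have hc1half : c1 ≤ 1 / 2 := by
    rw [hc1]
    apply one_div_le_one_div_of_le (by norm_num)
    have : 0 ≤ 4 * CZ * A := by positivity
    linarith
  have hc1Z : 2 * CZ * A * c1 ≤ 1 / 2 := by
    rw [hc1, mul_one_div, div_le_div_iff₀ (by positivity) (by norm_num)]
    linarith
  set c2 : ℝ := min 1 (cP / CS) with hc2
  have hc2pos : 0 < c2 := lt_min one_pos (by positivity)
  have hc2one : c2 ≤ 1 := min_le_left _ _
  have hc2P : CS * c2 ≤ cP := by
    have : c2 ≤ cP / CS := min_le_right _ _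
    calc CS * c2 ≤ CS * (cP / CS) := mul_le_mul_of_nonneg_left this hCS.le
      _ = cP := by field_simp
  clear_value c1 c2
  obtain ⟨Y, hY⟩ := large_ratio ((4 / c2) ^ 2) (by positivity)
  set Y' : ℕ := max (max yS yP) (max Y 3) with hY'
  set L₀ : ℝ := (Y' + 2) / c1 + 2 * Real.log CQ + 1 / (4 * c1 ^ 2) + (2 / c1) ^ 2 with hL₀
  have hlogCQ : 0 ≤ Real.log CQ := Real.log_nonneg (by exact_mod_cast hCQ)
  have hlogN : Tendsto (fun N : ℕ => Real.log (N : ℝ)) atTop atTop :=
    Real.tendsto_log_atTop.comp tendsto_natCast_atTop_atTop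
  obtain ⟨N₀, hN₀⟩ := eventually_atTop.1 (hlogN.eventually (eventually_ge_atTop L₀))
  refine ⟨c1 * c2 / 8, by positivity, max N₀ 1, fun N hN => ?_⟩
  have hL := hN₀ N ((le_max_left _ _).trans hN)
  have hN1 : 1 ≤ N := (le_max_right _ _).trans hN
  set L := Real.log (N : ℝ) with hLdef
  clear_value Y' L₀
  have hYnn : (0 : ℝ) ≤ Y' := Nat.cast_nonneg _
  have hL1 : (Y' + 2) / c1 ≤ L := by
    have : 0 ≤ 1 / (4 * c1 ^ 2) := by positivity
    have : 0 ≤ (2 / c1) ^ 2 := by positivity
    linarith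
  have hL2 : 2 * Real.log CQ ≤ L := by
    have : 0 ≤ 1 / (4 * c1 ^ 2) := by positivity
    have : 0 ≤ (2 / c1) ^ 2 := by positivity
    have : 0 ≤ (Y' + 2) / c1 := by positivity
    linarith
  have hL3 : 1 / (4 * c1 ^ 2) ≤ L := by
    have : 0 ≤ (2 / c1) ^ 2 := by positivity
    have : 0 ≤ (Y' + 2) / c1 := by positivity
    linarith
  have hL4 : (2 / c1) ^ 2 ≤ L := by
    have : 0 ≤ 1 / (4 * c1 ^ 2) := by positivity
    have : 0 ≤ (Y' + 2) / c1 := by positivity
    linarith
  have hLpos : 0 < L := lt_of_lt_of_le (by positivity) hL4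
  have hL1' : Y' + 2 ≤ c1 * L := by
    rw [div_le_iff₀ hc1pos] at hL1
    linarith
  -- the parameter `y`
  set y : ℕ := ⌊c1 * L⌋₊ with hy
  have hyle : (y : ℝ) ≤ c1 * L := Nat.floor_le (by positivity)
  have hylt : c1 * L < y + 1 := Nat.lt_floor_add_one _
  have hyge : c1 * L / 2 ≤ y := by linarith
  clear_value y
  have hyY' : Y' ≤ y := by
    have : (Y' : ℝ) < y := by linarith
    exact_mod_cast this.le
  rw [hY'] at hyY'
  have hyS : yS ≤ y := ((le_max_left _ _).trans (le_max_left _ _)).trans hyY'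
  have hyP : yP ≤ y := ((le_max_right _ _).trans (le_max_left _ _)).trans hyY'
  have hyY : Y ≤ y := ((le_max_left _ _).trans (le_max_right _ _)).trans hyY'
  have hy3 : 3 ≤ y := ((le_max_right _ _).trans (le_max_right _ _)).trans hyY'
  obtain ⟨hly1, hlly1, hratio⟩ := hY y hyY
  set ly := Real.log (y : ℝ) with hly
  set lly := Real.log ly with hlly
  have hlypos : 0 < ly := by linarith
  have hllypos : 0 < lly := by linarith
  have hy0 : (0 : ℝ) < y := by
    have : 0 < y := by omega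
    exact_mod_cast this
  clear hY hL
  set r := √(ly / lly) with hr
  have hr4 : 4 / c2 ≤ r := by
    rw [hr]
    apply Real.le_sqrt_of_sq_le
    exact hratio
  -- the parameter `K`
  set K : ℕ := ⌊c2 * r⌋₊ with hK
  have hr0 : 0 ≤ r := Real.sqrt_nonneg _
  have hc2r : 4 ≤ c2 * r := by
    have := mul_le_mul_of_nonneg_left hr4 hc2pos.le
    calc (4 : ℝ) = c2 * (4 / c2) := by field_simp
      _ ≤ c2 * r := this
  have hKle : (K : ℝ) ≤ c2 * r := Nat.floor_le (by positivity)
  have hKlt : c2 * r < K + 1 := Nat.lt_floor_add_one _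
  clear_value K
  have hKge : c2 * r / 2 ≤ K := by linarith
  have hK2 : 2 ≤ K := by
    have : (2 : ℝ) ≤ K := by linarith
    exact_mod_cast this
  have hrly : r ≤ √ly := by
    rw [hr]
    apply Real.sqrt_le_sqrt
    exact div_le_self hlypos.le hlly1
  have hsqly : √ly ≤ ly := by
    rw [Real.sqrt_le_left hlypos.le]
    nlinarith
  have hKly : (K : ℝ) ≤ ly := by
    calc (K : ℝ) ≤ c2 * r := hKle
      _ ≤ 1 * r := mul_le_mul_of_nonneg_right hc2one hr0
      _ ≤ ly := by
        rw [one_mul]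
        exact hrly.trans hsqly
  have hKpos : (0 : ℝ) < K := by
    have : 0 < K := by omega
    exact_mod_cast this
  have hlogK : Real.log K ≤ lly := Real.log_le_log hKpos hKly
  -- the number of survivors
  have hcard : (Sur y (K * y)).card ≤
      ((Ioc y (A * y)).filter (fun p => p.Prime ∧ p % 4 = 3)).card := by
    have h5 := h1 y K hyS hK2 hKly
    have h6 := h2 y hyP
    have h7 : CS * (K * y) * √(Real.log K) / (ly * √ly) ≤ cP * y / ly := by
      have hsql : 0 < √ly := Real.sqrt_pos.2 hlypos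
      rw [div_le_div_iff₀ (by positivity) hlypos]
      have h8 : K * √(Real.log K) ≤ c2 * √ly := by
        have h9 : √(Real.log K) ≤ √lly := Real.sqrt_le_sqrt hlogK
        calc K * √(Real.log K) ≤ (c2 * r) * √lly :=
              mul_le_mul hKle h9 (Real.sqrt_nonneg _) (by positivity)
          _ = c2 * (r * √lly) := by ring
          _ = c2 * √ly := by
            congr 1
            rw [hr, ← Real.sqrt_mul (by positivity)]
            congr 1
            field_simp
      have h9 : CS * (K * √(Real.log K)) ≤ cP * √ly := by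
        calc CS * (K * √(Real.log K)) ≤ CS * (c2 * √ly) := mul_le_mul_of_nonneg_left h8 hCS.le
          _ = CS * c2 * √ly := by ring
          _ ≤ cP * √ly := mul_le_mul_of_nonneg_right hc2P hsql.le
      calc CS * (K * y) * √(Real.log K) * ly = CS * (K * √(Real.log K)) * (y * ly) := by ring
        _ ≤ cP * √ly * (y * ly) := mul_le_mul_of_nonneg_right h9 (by positivity)
        _ = cP * y * (ly * √ly) := by ring
    have h8 := (h5.trans h7).trans h6
    exact_mod_cast h8
  obtain ⟨f, hf⟩ := exists_att hcard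
  obtain ⟨a, ha⟩ := hCRT y (A * y) (K * y) f hf
  set M := MM y (K * y) f with hM
  obtain ⟨hM6, hMpos, hMlow⟩ := hLOW y (A * y) (K * y) f hy3 hf
  obtain ⟨n, hnM, hnC, hna, hnsq⟩ := h3 M a hM6 hMpos (fun n hn p hp hpM =>
    hNSQ y (A * y) (K * y) f n hf (ha n hn) p hp hpM)
  have hcon := ha n hna
  have hMR : (0 : ℝ) < M := by exact_mod_cast hMpos
  -- sizes
  have hKy : K ≤ y := by
    have h5 : (K : ℝ) ≤ y := hKly.trans ((Real.log_le_sub_one_of_pos hy0).trans (by linarith))
    exact_mod_cast h5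
  have hsiz := h4 y A (K * y) f (by omega) (by omega) (Nat.mul_pos (by omega) (by omega))
    (by rw [sq]; exact Nat.mul_le_mul_right y hKy) hf
  have hnN : (n : ℝ) ≤ N := by
    have h5 : (n : ℝ) ≤ CQ * (M : ℝ) ^ 2 := by exact_mod_cast hnC
    have h6 : Real.log (CQ * (M : ℝ) ^ 2) ≤ L := by
      have hCQ0 : (0 : ℝ) < CQ := by exact_mod_cast hCQ
      rw [Real.log_mul hCQ0.ne' (by positivity), Real.log_pow]
      have h7 : CZ * A * y ≤ CZ * A * (c1 * L) := mul_le_mul_of_nonneg_left hyle (by positivity)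
      have h8 : 2 * (CZ * A * (c1 * L)) ≤ 1 / 2 * L := by
        calc 2 * (CZ * A * (c1 * L)) = 2 * CZ * A * c1 * L := by ring
          _ ≤ 1 / 2 * L := mul_le_mul_of_nonneg_right hc1Z hLpos.le
      push_cast
      linarith
    have hN0 : (0 : ℝ) < N := by exact_mod_cast hN1
    have h7 : CQ * (M : ℝ) ^ 2 ≤ N := by
      have hCQ0 : (0 : ℝ) < CQ := by exact_mod_cast hCQ
      exact (Real.log_le_log_iff (by positivity) hN0).1 h6
    exact h5.trans h7
  have hLn : L ≤ n := by
    have h5 : (4 : ℝ) * ((K * y : ℕ) : ℝ) ^ 2 ≤ n := by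
      have : 4 * (K * y) ^ 2 ≤ n := hMlow.le.trans hnM
      exact_mod_cast this
    have h6 : 2 * (y : ℝ) ≤ ((K * y : ℕ) : ℝ) := by
      push_cast
      have : (2 : ℝ) ≤ K := by exact_mod_cast hK2
      exact mul_le_mul_of_nonneg_right this hy0.le
    have h7 : (c1 * L) ^ 2 ≤ ((K * y : ℕ) : ℝ) ^ 2 := by
      apply pow_le_pow_left₀ (by positivity)
      linarith
    have h8 : L ≤ 4 * (c1 * L) ^ 2 := by
      rw [div_le_iff₀ (by positivity)] at hL3
      calc L = L * 1 := (mul_one L).symm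
        _ ≤ L * (L * (4 * c1 ^ 2)) := mul_le_mul_of_nonneg_left hL3 hLpos.le
        _ = 4 * (c1 * L) ^ 2 := by ring
    linarith
  refine ⟨n, hLn, by exact_mod_cast hnN, hcon.1, hnsq, fun x₁ x₂ x₃ hx => ?_⟩
  have hkil := hKIL y (A * y) (K * y) f n hf hcon x₁ x₂ x₃ hx
  have hkilR : ((K * y : ℕ) : ℝ) < |(x₃ : ℝ)| := by
    have h5 : (((K * y : ℕ) : ℤ) : ℝ) < ((|x₃| : ℤ) : ℝ) := by exact_mod_cast hkil
    rw [Int.cast_abs] at h5
    exact_mod_cast h5
  refine lt_of_le_of_lt ?_ hkilR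
  -- the comparison of the logarithms
  have hyL : (y : ℝ) ≤ L := by
    have : c1 * L ≤ 1 * L := mul_le_mul_of_nonneg_right (by linarith) hLpos.le
    linarith
  have hlyL : ly ≤ Real.log L := Real.log_le_log hy0 hyL
  have hllyL : lly ≤ Real.log (Real.log L) := Real.log_le_log hlypos hlyL
  have hsqL : √L ≤ y := by
    have h5 : 2 / c1 ≤ √L := Real.le_sqrt_of_sq_le hL4
    have h6 : √L * √L = L := Real.mul_self_sqrt hLpos.le
    have h7 : 1 ≤ c1 / 2 * √L := by
      calc (1 : ℝ) = c1 / 2 * (2 / c1) := by field_simp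
        _ ≤ c1 / 2 * √L := mul_le_mul_of_nonneg_left h5 (by positivity)
    have h8 : √L ≤ c1 * L / 2 := by
      calc √L = 1 * √L := (one_mul _).symm
        _ ≤ (c1 / 2 * √L) * √L := mul_le_mul_of_nonneg_right h7 (Real.sqrt_nonneg _)
        _ = c1 * (√L * √L) / 2 := by ring
        _ = c1 * L / 2 := by rw [h6]
    exact h8.trans hyge
  have hlyL2 : Real.log L / 2 ≤ ly := by
    have h5 : Real.log (√L) = Real.log L / 2 := Real.log_sqrt hLpos.le
    rw [← h5]
    exact Real.log_le_log (Real.sqrt_pos.2 hLpos) hsqL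
  have h9 : √(Real.log L / Real.log (Real.log L)) ≤ 2 * r := by
    have h10 : Real.log L / Real.log (Real.log L) ≤ 4 * (ly / lly) := by
      calc Real.log L / Real.log (Real.log L) ≤ Real.log L / lly :=
            div_le_div_of_nonneg_left (hlypos.le.trans hlyL) hllypos hllyL
        _ ≤ (4 * ly) / lly := by
            apply div_le_div_of_nonneg_right _ hllypos.le
            linarith
        _ = 4 * (ly / lly) := by ring
    calc √(Real.log L / Real.log (Real.log L)) ≤ √(4 * (ly / lly)) := Real.sqrt_le_sqrt h10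
      _ = 2 * r := by
        rw [Real.sqrt_mul (by norm_num), hr]
        congr 1
        rw [show (4 : ℝ) = 2 ^ 2 by norm_num, Real.sqrt_sq (by norm_num)]
  calc c1 * c2 / 8 * L * √(Real.log L / Real.log (Real.log L))
      ≤ c1 * c2 / 8 * L * (2 * r) := mul_le_mul_of_nonneg_left h9 (by positivity)
    _ = (c2 * r / 2) * (c1 * L / 2) := by ring
    _ ≤ K * y := mul_le_mul hKge hyge (by positivity) hKpos.le
    _ = ((K * y : ℕ) : ℝ) := by push_cast; ring

end Pool.Agent.H90.LCL
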