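import Pool.Agent.H90.LC.Targets
import Pool.Agent.H28.Sieve

/-!
# SQF: squarefree numbers in arithmetic progressions
-/

set_option autoImplicit false

namespace Pool.Agent.H90.LCL

open Finset Pool.Agent.H90.LC

theorem sum_sq (n : ℕ) (hn : 4 ≤ n) : ∑ k ∈ Icc 5 n, 1 / (k : ℝ) ^ 2 ≤ 1 / 4 - 1 / (n : ℝ) := by
  induction n, hn using Nat.le_induction with
  | base => norm_num
  | succ n hn ih =>
    rw [sum_Icc_succ_top (by omega)]
    have h0 : (0 : ℝ) < n := by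
      have : 0 < n := by omega
      exact_mod_cast this
    have key : 1 / (((n + 1 : ℕ) : ℝ)) ^ 2 ≤ 1 / (n : ℝ) - 1 / (((n + 1 : ℕ) : ℝ)) := by
      push_cast
      rw [div_sub_div _ _ h0.ne' (by positivity), div_le_div_iff₀ (by positivity) (by positivity)]
      nlinarith
    linarith

theorem pf_SQF : T_SQF := by
  classical
  refine ⟨17, by norm_num, fun M a h6 hM hyp => ?_⟩
  by_contra hcon
  push Not at hcon
  set J := 16 * M with hJ
  set a' := a % M with ha'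
  have ha'M : a' < M := Nat.mod_lt _ hM
  have hn : ∀ j ∈ Icc 1 J, ∃ p ∈ Icc 5 (5 * M), (p.Prime ∧ ¬ p ∣ M) ∧ p ^ 2 ∣ M * j + a' := by
    intro j hj
    rw [mem_Icc] at hj
    have hmod : M * j + a' ≡ a [MOD M] := by
      have h1 : M * j + a' ≡ 0 + a [MOD M] :=
        Nat.ModEq.add ((Nat.modEq_zero_iff_dvd).2 (Dvd.intro _ rfl)) (Nat.mod_modEq a M)
      rwa [zero_add] at h1
    have hle1 : M ≤ M * j + a' := by nlinarith
    have hle2 : M * j + a' ≤ 17 * M ^ 2 := by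
      have : M * j ≤ M * (16 * M) := Nat.mul_le_mul_left M hj.2
      nlinarith
    have hns := hcon (M * j + a') hle1 hle2 hmod
    rw [Nat.squarefree_iff_prime_squarefree] at hns
    push Not at hns
    obtain ⟨p, hp, hpp⟩ := hns
    rw [← sq] at hpp
    have hpM : ¬ p ∣ M := fun h => hyp _ hmod p hp h hpp
    have h2 : p ≠ 2 := fun h => hpM (h ▸ dvd_trans (by norm_num) h6)
    have h3 : p ≠ 3 := fun h => hpM (h ▸ dvd_trans (by norm_num) h6)
    have h4 : p ≠ 4 := fun h => by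
      rw [h] at hp
      revert hp
      decide
    have h5 : 5 ≤ p := by
      have := hp.two_le
      omega
    have h7 : p ≤ 5 * M := by
      have h8 : p ^ 2 ≤ 17 * M ^ 2 := (Nat.le_of_dvd (by omega) hpp).trans hle2
      by_contra h9
      push Not at h9
      nlinarith
    exact ⟨p, mem_Icc.2 ⟨h5, h7⟩, ⟨hp, hpM⟩, hpp⟩
  have hsub : Icc 1 J ⊆ (Icc 5 (5 * M)).biUnion
      (fun p => (Icc 1 J).filter (fun j => (p.Prime ∧ ¬ p ∣ M) ∧ p ^ 2 ∣ M * j + a')) := by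
    intro j hj
    obtain ⟨p, hp, h⟩ := hn j hj
    exact mem_biUnion.2 ⟨p, hp, mem_filter.2 ⟨hj, h⟩⟩
  have hcard := (card_le_card hsub).trans card_biUnion_le
  rw [Nat.card_Icc, Nat.add_sub_cancel] at hcard
  have hone : ∀ p ∈ Icc 5 (5 * M), (((Icc 1 J).filter
      (fun j => (p.Prime ∧ ¬ p ∣ M) ∧ p ^ 2 ∣ M * j + a')).card : ℝ) ≤
      ((J : ℝ) + 1) * (1 / (p : ℝ) ^ 2) + 1 := by
    intro p hp
    have hp5 := (mem_Icc.1 hp).1
    have h1 : ((Icc 1 J).filter (fun j => (p.Prime ∧ ¬ p ∣ M) ∧ p ^ 2 ∣ M * j + a')).card ≤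
        (J + 1) / p ^ 2 + 1 := by
      apply Pool.Agent.H28.card_le_of_modEq
      · intro t ht
        rw [mem_filter, mem_Icc] at ht
        omega
      · intro t ht u hu
        rw [mem_filter] at ht hu
        exact Pool.Agent.H28.modEq_sq_of_sq_dvd ht.2.1.1 ht.2.1.2 ht.2.2 hu.2.2
    have h2 : (((J + 1) / p ^ 2 : ℕ) : ℝ) ≤ ((J : ℝ) + 1) * (1 / (p : ℝ) ^ 2) := by
      refine Nat.cast_div_le.trans (le_of_eq ?_)
      push_cast
      ring
    have h3 : (((Icc 1 J).filter (fun j => (p.Prime ∧ ¬ p ∣ M) ∧ p ^ 2 ∣ M * j + a')).card : ℝ) ≤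
        (((J + 1) / p ^ 2 + 1 : ℕ) : ℝ) := by exact_mod_cast h1
    refine h3.trans ?_
    push_cast at h2 ⊢
    linarith
  have hM6 : 6 ≤ M := Nat.le_of_dvd hM h6
  have hMR : (6 : ℝ) ≤ M := by exact_mod_cast hM6
  have h1 : (J : ℝ) ≤ ∑ p ∈ Icc 5 (5 * M), (((J : ℝ) + 1) * (1 / (p : ℝ) ^ 2) + 1) := by
    have h2 : (J : ℝ) ≤ ((∑ p ∈ Icc 5 (5 * M), ((Icc 1 J).filter
      (fun j => (p.Prime ∧ ¬ p ∣ M) ∧ p ^ 2 ∣ M * j + a')).card : ℕ) : ℝ) := by
      exact_mod_cast hcard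
    refine h2.trans ?_
    push_cast
    exact sum_le_sum hone
  rw [sum_add_distrib, ← mul_sum, sum_const, nsmul_eq_mul, mul_one, Nat.card_Icc] at h1
  have h2 := sum_sq (5 * M) (by omega)
  have h3 : ∑ k ∈ Icc 5 (5 * M), 1 / (k : ℝ) ^ 2 ≤ 1 / 4 := by
    have : 0 ≤ 1 / (((5 * M : ℕ) : ℝ)) := by positivity
    linarith
  have h4 : ((5 * M + 1 - 5 : ℕ) : ℝ) ≤ 5 * M := by
    have : 5 * M + 1 - 5 ≤ 5 * M := by omega
    have h5 : ((5 * M + 1 - 5 : ℕ) : ℝ) ≤ ((5 * M : ℕ) : ℝ) := by exact_mod_cast this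
    push_cast at h5
    exact h5
  have h5 : ((J : ℝ) + 1) * ∑ k ∈ Icc 5 (5 * M), 1 / (k : ℝ) ^ 2 ≤ ((J : ℝ) + 1) * (1 / 4) :=
    mul_le_mul_of_nonneg_left h3 (by positivity)
  have h6' : (J : ℝ) = 16 * M := by
    rw [hJ]
    push_cast
    ring
  rw [h6'] at h1 h5
  linarith

end Pool.Agent.H90.LCL
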